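import Pool.Agent.Work.MP_49280d_co.Fu.Upper

/-!
# Families with bounded degrees: the counting inequalities
-/

open Finset

namespace Pool.Agent.Work.MP_49280d_co.Dg

open Pool.Agent.Work.MP_49280d_co.Fu

variable {α : Type*} [DecidableEq α] {ℓ : ℕ} {F : Finset (Finset α)} {X : Finset α}

/-- the sum of the squared degrees is at most the maximal degree times the number of incidences -/
lemma PP_le (hX : ∀ A ∈ F, A ⊆ X) (hc : ∀ A ∈ F, A.card = ℓ) {Δ : ℝ}
    (hd : ∀ x ∈ X, dg F x ≤ Δ) : PP F X ≤ Δ * (F.card * ℓ) := by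
  rw [← sum_dg hX hc, Finset.mul_sum]
  unfold PP
  refine Finset.sum_le_sum fun x hx => ?_
  rw [sq]
  exact mul_le_mul_of_nonneg_right (hd x hx) (dg_nonneg F x)

/-- the number of ordered pairs of different members that meet -/
lemma meet_eq (hF : Adm ℓ F) : ∑ A ∈ F, ∑ B ∈ F, ne1 A B * mt A B =
    (∑ A ∈ F, ∑ B ∈ F, ne1 A B * mu A B + ∑ A ∈ F, ∑ B ∈ F, ne1 A B * i1 A B) / 2 := by
  rw [← Finset.sum_add_distrib, Finset.sum_div]
  refine Finset.sum_congr rfl fun A hA => ?_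
  rw [← Finset.sum_add_distrib, Finset.sum_div]
  exact Finset.sum_congr rfl fun B hB => mt_eq hF hA hB

/-- the meeting pairs in terms of the squared degrees -/
lemma meet_le (hF : Adm ℓ F) (hX : ∀ A ∈ F, A ⊆ X) :
    4 * ∑ A ∈ F, ∑ B ∈ F, ne1 A B * mt A B + 2 * (F.card * ℓ) ≤ 3 * PP F X := by
  have h1 := sum_i1_le hF hX
  have h2 := PP_split hF hX
  rw [meet_eq hF]
  linarith

/-- disjointness is a triangle-free relation -/
lemma disj_le (hF : Adm ℓ F) :
    2 * ∑ A ∈ F, ∑ B ∈ F, ne1 A B * (1 - mt A B) ≤ (F.card : ℝ) ^ 2 := by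
  classical
  have hm := mantel F (fun A B => A ≠ B ∧ (A ∩ B).card = 0)
    (fun A B h => ⟨h.1.symm, by rw [Finset.inter_comm]; exact h.2⟩)
    (fun A hA B hB C hC hAB hAC hBC =>
      hF.no_sf A hA B hB C hC hAB.1 hAC.1 hBC.1
        ⟨by rw [Finset.card_eq_zero.1 hAB.2, Finset.card_eq_zero.1 hAC.2],
          by rw [Finset.card_eq_zero.1 hAB.2, Finset.card_eq_zero.1 hBC.2]⟩)
  refine le_trans (le_of_eq ?_) hm
  congr 1
  rw [Finset.card_filter, Nat.cast_sum, Finset.sum_product]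
  refine Finset.sum_congr rfl fun A _ => Finset.sum_congr rfl fun B _ => ?_
  unfold ne1 Fu.mt
  by_cases h1 : A = B
  · simp [h1]
  · by_cases h2 : (A ∩ B).card = 0
    · simp [h1, h2]
    · simp [h1, h2]

lemma meet_add (F : Finset (Finset α)) :
    ∑ A ∈ F, ∑ B ∈ F, ne1 A B * mt A B + ∑ A ∈ F, ∑ B ∈ F, ne1 A B * (1 - mt A B) =
      (F.card : ℝ) * (F.card - 1) := by
  rw [← sum_ne1 F, ← Finset.sum_add_distrib]
  refine Finset.sum_congr rfl fun A _ => ?_
  rw [← Finset.sum_add_distrib]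
  refine Finset.sum_congr rfl fun B _ => ?_
  ring

/-- the degree bound, in terms of real numbers -/
theorem deg_bound (hF : Adm ℓ F) (hne : F.Nonempty) (hX : ∀ A ∈ F, A ⊆ X) {Δ : ℝ}
    (hd : ∀ x ∈ X, dg F x ≤ Δ) : 2 * (F.card : ℝ) ≤ 3 * Δ * ℓ - 2 * ℓ + 4 := by
  have h1 := meet_le hF hX
  have h2 := disj_le hF
  have h3 := meet_add F
  have h4 := PP_le hX hF.card_eq hd
  have hN : (0 : ℝ) < F.card := by exact_mod_cast hne.card_pos
  have h5 : (F.card : ℝ) * (2 * F.card) ≤ F.card * (3 * Δ * ℓ - 2 * ℓ + 4) := by nlinarith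
  exact le_of_mul_le_mul_left h5 hN

/-- the degree bound for intersecting families, in terms of real numbers -/
theorem deg_bound_int (hF : Adm ℓ F) (hne : F.Nonempty) (hX : ∀ A ∈ F, A ⊆ X)
    (hi : ∀ A ∈ F, ∀ B ∈ F, A ≠ B → (A ∩ B).Nonempty) {Δ : ℝ}
    (hd : ∀ x ∈ X, dg F x ≤ Δ) : 4 * (F.card : ℝ) ≤ 3 * Δ * ℓ - 2 * ℓ + 4 := by
  have h1 := meet_le hF hX
  have h3 := meet_add F
  have h4 := PP_le hX hF.card_eq hd
  have h0 : ∑ A ∈ F, ∑ B ∈ F, ne1 A B * (1 - mt A B) = 0 := by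
    refine Finset.sum_eq_zero fun A hA => Finset.sum_eq_zero fun B hB => ?_
    unfold ne1 Fu.mt
    by_cases h : A = B
    · simp [h]
    · have := Finset.card_pos.2 (hi A hA B hB h)
      rw [if_neg h, if_neg (by omega)]
      ring
  have hN : (0 : ℝ) < F.card := by exact_mod_cast hne.card_pos
  have h5 : (F.card : ℝ) * (4 * F.card) ≤ F.card * (3 * Δ * ℓ - 2 * ℓ + 4) := by nlinarith
  exact le_of_mul_le_mul_left h5 hN

/-- a pair of points lies in at most two members -/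
lemma lam_cases (hF : Adm ℓ F) {x y : α} (hxy : x ≠ y) :
    lam F x y = 0 ∨ lam F x y = 1 ∨ lam F x y = 2 := by
  classical
  have h1 : lam F x y = ((F.filter (fun A => x ∈ A ∧ y ∈ A)).card : ℝ) := by
    unfold lam ind
    rw [Finset.card_filter, Nat.cast_sum]
    refine Finset.sum_congr rfl fun A _ => ?_
    by_cases h1 : x ∈ A <;> by_cases h2 : y ∈ A <;> simp [h1, h2]
  have h2 : (F.filter (fun A => x ∈ A ∧ y ∈ A)).card ≤ 2 := by
    by_contra hcon
    push Not at hcon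
    obtain ⟨A, hA, B, hB, C, hC, hAB, hAC, hBC⟩ := Finset.two_lt_card.1 hcon
    obtain ⟨hA, hxA, hyA⟩ := Finset.mem_filter.1 hA
    obtain ⟨hB, hxB, hyB⟩ := Finset.mem_filter.1 hB
    obtain ⟨hC, hxC, hyC⟩ := Finset.mem_filter.1 hC
    exact hF.pair_le hA hB hC hAB hAC hBC hxy hxA hxB hxC hyA hyB hyC
  rw [h1]
  have h3 : (F.filter (fun A => x ∈ A ∧ y ∈ A)).card = 0 ∨
      (F.filter (fun A => x ∈ A ∧ y ∈ A)).card = 1 ∨
      (F.filter (fun A => x ∈ A ∧ y ∈ A)).card = 2 := by omega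
  rcases h3 with h | h | h <;> rw [h] <;> norm_num

/-- the number of points that lie with `x` in two members -/
noncomputable def qq (F : Finset (Finset α)) (X : Finset α) (x : α) : ℝ :=
  ∑ y ∈ X, ne1 x y * ((lam F x y ^ 2 - lam F x y) / 2)

/-- Mantel's theorem at a point -/
lemma qq_ge (hF : Adm ℓ F) (hX : ∀ A ∈ F, A ⊆ X) {x : α} (hx : x ∈ X) :
    dg F x ^ 2 / 4 - dg F x / 2 ≤ qq F X x := by
  classical
  have h1 : ∀ y, lam F x y ^ 2 - lam F x y =
      ∑ A ∈ F, ∑ B ∈ F, ne1 A B * ((ind x A * ind x B) * (ind y A * ind y B)) := by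
    intro y
    have h2 : lam F x y ^ 2 = ∑ A ∈ F, ∑ B ∈ F, (ind x A * ind x B) * (ind y A * ind y B) := by
      rw [sq, lam, Finset.sum_mul_sum]
      refine Finset.sum_congr rfl fun A _ => Finset.sum_congr rfl fun B _ => ?_
      ring
    rw [h2, split_ne F]
    have h3 : ∑ A ∈ F, (ind x A * ind x A) * (ind y A * ind y A) = lam F x y := by
      refine Finset.sum_congr rfl fun A _ => ?_
      rw [ind_sq, ind_sq]
    rw [h3]; ring
  have h4 : ∀ A ∈ F, ∀ B ∈ F, ∑ y ∈ X, ne1 x y * ((ind x A * ind x B) * (ind y A * ind y B)) =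
      (ind x A * ind x B) * (mu A B - 1) := by
    intro A hA B hB
    have h5 : ∑ y ∈ X, ne1 x y * ((ind x A * ind x B) * (ind y A * ind y B)) =
        ∑ y ∈ X, (ind x A * ind x B) * (ind y A * ind y B) -
          ∑ y ∈ X, (if x = y then (ind x A * ind x B) * (ind y A * ind y B) else 0) := by
      rw [← Finset.sum_sub_distrib]
      refine Finset.sum_congr rfl fun y _ => ?_
      unfold ne1
      split_ifs <;> ring
    rw [h5, Finset.sum_ite_eq, if_pos hx, ← Finset.mul_sum, sum_ind_mul (hX A hA)]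
    have h6 : (ind x A * ind x B) * (ind x A * ind x B) = ind x A * ind x B := by
      rw [ind_inter, ind_sq]
    rw [h6]; ring
  have h7 : 2 * qq F X x = ∑ A ∈ F, ∑ B ∈ F, ne1 A B * ((ind x A * ind x B) * (mu A B - 1)) := by
    unfold qq
    calc 2 * ∑ y ∈ X, ne1 x y * ((lam F x y ^ 2 - lam F x y) / 2)
        = ∑ y ∈ X, ∑ A ∈ F, ∑ B ∈ F,
            ne1 A B * (ne1 x y * ((ind x A * ind x B) * (ind y A * ind y B))) := by
          rw [Finset.mul_sum]
          refine Finset.sum_congr rfl fun y _ => ?_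
          rw [h1]
          have : 2 * (ne1 x y * ((∑ A ∈ F, ∑ B ∈ F,
              ne1 A B * ((ind x A * ind x B) * (ind y A * ind y B))) / 2)) =
              ne1 x y * ∑ A ∈ F, ∑ B ∈ F,
                ne1 A B * ((ind x A * ind x B) * (ind y A * ind y B)) := by ring
          rw [this, Finset.mul_sum]
          refine Finset.sum_congr rfl fun A _ => ?_
          rw [Finset.mul_sum]
          refine Finset.sum_congr rfl fun B _ => ?_
          ring
      _ = ∑ A ∈ F, ∑ B ∈ F, ∑ y ∈ X,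
            ne1 A B * (ne1 x y * ((ind x A * ind x B) * (ind y A * ind y B))) := by
          rw [Finset.sum_comm]
          refine Finset.sum_congr rfl fun A _ => ?_
          rw [Finset.sum_comm]
      _ = _ := by
          refine Finset.sum_congr rfl fun A hA => Finset.sum_congr rfl fun B hB => ?_
          rw [← Finset.mul_sum, h4 A hA B hB]
  -- Mantel
  have hm := mantel (F.filter (fun A => x ∈ A)) (fun A B => A ≠ B ∧ A ∩ B = {x})
    (fun A B h => ⟨h.1.symm, by rw [Finset.inter_comm]; exact h.2⟩)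
    (fun A hA B hB C hC hAB hAC hBC =>
      hF.no_sf A (Finset.mem_filter.1 hA).1 B (Finset.mem_filter.1 hB).1 C
        (Finset.mem_filter.1 hC).1 hAB.1 hAC.1 hBC.1
        ⟨hAB.2.trans hAC.2.symm, hAB.2.trans hBC.2.symm⟩)
  rw [← dg_eq] at hm
  have h8 : (((F.filter (fun A => x ∈ A) ×ˢ F.filter (fun A => x ∈ A)).filter
      (fun p => p.1 ≠ p.2 ∧ p.1 ∩ p.2 = {x})).card : ℝ) =
      ∑ A ∈ F, ∑ B ∈ F, (if A ≠ B ∧ A ∩ B = {x} then (1 : ℝ) else 0) := by
    rw [← Finset.sum_product', Finset.sum_ite, Finset.sum_const_zero, add_zero,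
      Finset.sum_const, nsmul_eq_mul, mul_one]
    congr 2
    ext ⟨A, B⟩
    simp only [Finset.mem_filter, Finset.mem_product]
    constructor
    · rintro ⟨⟨⟨hA, _⟩, ⟨hB, _⟩⟩, hne, hx⟩
      exact ⟨⟨hA, hB⟩, hne, hx⟩
    · rintro ⟨⟨hA, hB⟩, hne, hx⟩
      have : x ∈ A ∩ B := by rw [hx]; exact Finset.mem_singleton_self x
      exact ⟨⟨⟨hA, (Finset.mem_inter.1 this).1⟩, ⟨hB, (Finset.mem_inter.1 this).2⟩⟩, hne, hx⟩
  rw [h8] at hm
  have h9 : ∀ A ∈ F, ∀ B ∈ F, ne1 A B * (ind x A * ind x B) -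
      (if A ≠ B ∧ A ∩ B = {x} then (1 : ℝ) else 0) ≤
      ne1 A B * ((ind x A * ind x B) * (mu A B - 1)) := by
    intro A hA B hB
    by_cases hAB : A = B
    · simp [ne1, hAB]
    have hc := hF.inter_le A hA B hB hAB
    rw [ind_inter]
    unfold ne1 ind mu
    rw [if_neg hAB]
    by_cases hxx : x ∈ A ∩ B
    · have h0 : 0 < (A ∩ B).card := Finset.card_pos.2 ⟨x, hxx⟩
      have h3 : (A ∩ B).card = 1 ∨ (A ∩ B).card = 2 := by omega
      rcases h3 with h | h
      · have h4 : A ∩ B = {x} := by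
          obtain ⟨w, hw⟩ := Finset.card_eq_one.1 h
          rw [hw] at hxx ⊢
          rw [Finset.mem_singleton.1 hxx]
        rw [if_pos hxx, if_pos ⟨hAB, h4⟩, h]
        norm_num
      · have h4 : ¬ (A ≠ B ∧ A ∩ B = {x}) := by
          rintro ⟨_, h5⟩
          rw [h5] at h
          simp at h
        rw [if_pos hxx, if_neg h4, h]
        norm_num
    · have h4 : ¬ (A ≠ B ∧ A ∩ B = {x}) := by
        rintro ⟨_, h5⟩
        exact hxx (by rw [h5]; exact Finset.mem_singleton_self x)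
      rw [if_neg hxx, if_neg h4]
      norm_num
  have h10 : ∑ A ∈ F, ∑ B ∈ F, ne1 A B * (ind x A * ind x B) = dg F x ^ 2 - dg F x := by
    have h := split_ne F (fun A B => ind x A * ind x B)
    have h' : ∑ A ∈ F, ∑ B ∈ F, ind x A * ind x B = dg F x ^ 2 := by
      rw [sq, dg, Finset.sum_mul_sum]
    have h'' : ∑ A ∈ F, ind x A * ind x A = dg F x := by
      refine Finset.sum_congr rfl fun A _ => ind_sq x A
    linarith
  have h11 : ∑ A ∈ F, ∑ B ∈ F, ne1 A B * (ind x A * ind x B) -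
      ∑ A ∈ F, ∑ B ∈ F, (if A ≠ B ∧ A ∩ B = {x} then (1 : ℝ) else 0) ≤
      ∑ A ∈ F, ∑ B ∈ F, ne1 A B * ((ind x A * ind x B) * (mu A B - 1)) := by
    rw [← Finset.sum_sub_distrib]
    refine Finset.sum_le_sum fun A hA => ?_
    rw [← Finset.sum_sub_distrib]
    exact Finset.sum_le_sum fun B hB => h9 A hA B hB
  rw [← h7, h10] at h11
  linarith

/-- the number of points seen from `x`, with multiplicity -/
lemma sum_lam_row (hX : ∀ A ∈ F, A ⊆ X) (hc : ∀ A ∈ F, A.card = ℓ) {x : α} (hx : x ∈ X) :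
    ∑ y ∈ X, ne1 x y * lam F x y = dg F x * (ℓ - 1) := by
  have h1 : ∑ y ∈ X, lam F x y = dg F x * ℓ := by
    unfold lam dg
    rw [Finset.sum_comm, Finset.sum_mul]
    refine Finset.sum_congr rfl fun A hA => ?_
    rw [← Finset.mul_sum, sum_ind (hX A hA), hc A hA]
  have h2 : ∑ y ∈ X, ne1 x y * lam F x y =
      ∑ y ∈ X, lam F x y - ∑ y ∈ X, (if x = y then lam F x y else 0) := by
    rw [← Finset.sum_sub_distrib]
    refine Finset.sum_congr rfl fun y _ => ?_
    unfold ne1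
    split_ifs <;> ring
  rw [h2, h1, Finset.sum_ite_eq, if_pos hx, lam_self]
  ring

/-- Cauchy's inequality for the traces on a set of points -/
lemma sum_trace_sq (hne : F.Nonempty) (X1 : Finset α) :
    (∑ x ∈ X1, dg F x) ^ 2 / F.card - ∑ x ∈ X1, dg F x ≤
      ∑ x ∈ X1, ∑ y ∈ X1, ne1 x y * lam F x y := by
  have h0 := split_ne X1 (fun x y => lam F x y)
  simp only [lam_self] at h0
  have h1 : ∑ x ∈ X1, ∑ y ∈ X1, lam F x y = ∑ A ∈ F, (∑ x ∈ X1, ind x A) ^ 2 := by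
    have h5 : ∀ A : Finset α, (∑ x ∈ X1, ind x A) ^ 2 = ∑ x ∈ X1, ∑ y ∈ X1, ind x A * ind y A := by
      intro A
      rw [sq, Finset.sum_mul_sum]
    calc ∑ x ∈ X1, ∑ y ∈ X1, lam F x y = ∑ x ∈ X1, ∑ A ∈ F, ∑ y ∈ X1, ind x A * ind y A := by
          refine Finset.sum_congr rfl fun x _ => ?_
          unfold lam
          exact Finset.sum_comm
      _ = ∑ A ∈ F, ∑ x ∈ X1, ∑ y ∈ X1, ind x A * ind y A := Finset.sum_comm
      _ = ∑ A ∈ F, (∑ x ∈ X1, ind x A) ^ 2 := Finset.sum_congr rfl fun A _ => (h5 A).symm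
  have h2 : (∑ x ∈ X1, dg F x) = ∑ A ∈ F, ∑ x ∈ X1, ind x A := by
    unfold dg
    rw [Finset.sum_comm]
  have h3 : (∑ A ∈ F, ∑ x ∈ X1, ind x A) ^ 2 ≤ F.card * ∑ A ∈ F, (∑ x ∈ X1, ind x A) ^ 2 :=
    sq_sum_le_card_mul_sum_sq
  have hN : (0 : ℝ) < F.card := by exact_mod_cast hne.card_pos
  have h4 : (∑ x ∈ X1, dg F x) ^ 2 / F.card ≤ ∑ A ∈ F, (∑ x ∈ X1, ind x A) ^ 2 := by
    rw [div_le_iff₀ hN, h2, mul_comm]
    exact h3
  linarith

/-- **Coverage inequality.** `X1` a set of points, `a` weights in `[0, 1]`. -/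
theorem cover_ineq (hF : Adm ℓ F) (hne : F.Nonempty) (hX : ∀ A ∈ F, A ⊆ X) {X1 : Finset α}
    (h1 : X1 ⊆ X) {a : α → ℝ} (ha0 : ∀ x ∈ X1, 0 ≤ a x) (ha1 : ∀ x ∈ X1, a x ≤ 1) :
    ∑ x ∈ X1, a x * (dg F x ^ 2 / 4 - dg F x / 2 - dg F x * (ℓ - 1) + X1.card - 1) +
      ((∑ x ∈ X1, dg F x) ^ 2 / F.card - ∑ x ∈ X1, dg F x) - X1.card * (X1.card - 1) ≤
      ∑ x ∈ X1, qq F X x := by
  classical
  -- lambda and q inside `X1`
  have hq : ∀ x ∈ X1, ∑ y ∈ X1, ne1 x y * lam F x y - (X1.card - 1) ≤ qq F X x := by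
    intro x hx
    have h2 : ∑ y ∈ X1, ne1 x y * ((lam F x y ^ 2 - lam F x y) / 2) ≤ qq F X x := by
      unfold qq
      refine Finset.sum_le_sum_of_subset_of_nonneg h1 fun y _ _ => ?_
      by_cases hxy : x = y
      · simp [ne1, hxy]
      · rcases lam_cases hF hxy with h | h | h <;> rw [h] <;> norm_num [ne1, hxy]
    have h3 : ∑ y ∈ X1, (ne1 x y * lam F x y - ne1 x y) ≤
        ∑ y ∈ X1, ne1 x y * ((lam F x y ^ 2 - lam F x y) / 2) := by
      refine Finset.sum_le_sum fun y _ => ?_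
      by_cases hxy : x = y
      · simp [ne1, hxy]
      · rcases lam_cases hF hxy with h | h | h <;> rw [h] <;> norm_num [ne1, hxy]
    have h4 : ∑ y ∈ X1, ne1 x y = (X1.card : ℝ) - 1 := by
      have h5 : ∑ y ∈ X1, ne1 x y = ∑ y ∈ X1, (1 : ℝ) - ∑ y ∈ X1, (if x = y then (1 : ℝ) else 0) := by
        rw [← Finset.sum_sub_distrib]
        refine Finset.sum_congr rfl fun y _ => ?_
        unfold ne1
        split_ifs <;> ring
      rw [h5, Finset.sum_ite_eq, if_pos hx]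
      simp
    rw [Finset.sum_sub_distrib, h4] at h3
    linarith
  have hl : ∀ x ∈ X1, ∑ y ∈ X1, ne1 x y * lam F x y ≤ dg F x * (ℓ - 1) := by
    intro x hx
    rw [← sum_lam_row hX hF.card_eq (h1 hx)]
    refine Finset.sum_le_sum_of_subset_of_nonneg h1 fun y _ _ => ?_
    refine mul_nonneg (ne1_nonneg x y) ?_
    unfold lam
    exact Finset.sum_nonneg fun A _ => mul_nonneg (ind_nonneg x A) (ind_nonneg y A)
  have hpt : ∀ x ∈ X1, a x * (dg F x ^ 2 / 4 - dg F x / 2 - dg F x * (ℓ - 1) + X1.card - 1) +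
      (∑ y ∈ X1, ne1 x y * lam F x y - (X1.card - 1)) ≤ qq F X x := by
    intro x hx
    have e1 := hq x hx
    have e2 := hl x hx
    have e3 := qq_ge hF hX (h1 hx)
    have e4 := ha0 x hx
    have e5 := ha1 x hx
    set u := ∑ y ∈ X1, ne1 x y * lam F x y with hu
    have e6 : (1 - a x) * (u - (X1.card - 1)) ≤ (1 - a x) * qq F X x :=
      mul_le_mul_of_nonneg_left e1 (by linarith)
    have e7 : a x * (dg F x ^ 2 / 4 - dg F x / 2) ≤ a x * qq F X x :=
      mul_le_mul_of_nonneg_left e3 e4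
    have e8 : a x * u ≤ a x * (dg F x * (ℓ - 1)) := mul_le_mul_of_nonneg_left e2 e4
    nlinarith
  have hs := Finset.sum_le_sum hpt
  rw [Finset.sum_add_distrib, Finset.sum_sub_distrib, Finset.sum_const, nsmul_eq_mul] at hs
  have ht := sum_trace_sq hne X1
  linarith

/-- the total number of ordered pairs of points in two members, intersecting families -/
lemma sum_qq (hF : Adm ℓ F) (hX : ∀ A ∈ F, A ⊆ X)
    (hi : ∀ A ∈ F, ∀ B ∈ F, A ≠ B → (A ∩ B).Nonempty) :
    ∑ x ∈ X, qq F X x = PP F X - F.card * ℓ - F.card * (F.card - 1) := by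
  have h1 : ∑ x ∈ X, qq F X x =
      (∑ A ∈ F, ∑ B ∈ F, ne1 A B * (mu A B ^ 2 - mu A B)) / 2 := by
    rw [← sum_lam_sq_sub hX, Finset.sum_div]
    refine Finset.sum_congr rfl fun x _ => ?_
    unfold qq
    rw [Finset.sum_div]
    refine Finset.sum_congr rfl fun y _ => ?_
    ring
  have hT : ∑ A ∈ F, ∑ B ∈ F, ne1 A B * (mu A B ^ 2 - mu A B) =
      2 * ∑ A ∈ F, ∑ B ∈ F, ne1 A B * mu A B - 2 * ((F.card : ℝ) * (F.card - 1)) := by
    rw [← sum_ne1 F, Finset.mul_sum, Finset.mul_sum, ← Finset.sum_sub_distrib]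
    refine Finset.sum_congr rfl fun A hA => ?_
    rw [Finset.mul_sum, Finset.mul_sum, ← Finset.sum_sub_distrib]
    exact Finset.sum_congr rfl fun B hB => (mu_sq hF hA hB (hi A hA B hB)).1
  have hP := PP_split hF hX
  rw [h1, hT]
  linarith

end Pool.Agent.Work.MP_49280d_co.Dg
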