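import Pool.Agent.Work.MP_49280d_co.Dg.Near

/-!
# Families whose degrees are at most `(201/200) ℓ`
-/

open Finset

namespace Pool.Agent.Work.MP_49280d_co.Dg

open Pool.Agent.Work.MP_49280d_co.Fu

variable {α : Type*} [DecidableEq α] {ℓ : ℕ} {F : Finset (Finset α)}

/-- the members disjoint from `B` -/
def Nj (F : Finset (Finset α)) (B : Finset α) : Finset (Finset α) :=
  F.filter (fun A => B ≠ A ∧ B ∩ A = ∅)

lemma mem_Nj {A B : Finset α} : A ∈ Nj F B ↔ A ∈ F ∧ B ≠ A ∧ B ∩ A = ∅ := by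
  unfold Nj
  rw [Finset.mem_filter]

lemma Nj_subset (B : Finset α) : Nj F B ⊆ F := Finset.filter_subset _ _

lemma Nj_symm {A B : Finset α} (hB : B ∈ F) (h : A ∈ Nj F B) : B ∈ Nj F A := by
  rw [mem_Nj] at h ⊢
  exact ⟨hB, h.2.1.symm, by rw [Finset.inter_comm]; exact h.2.2⟩

/-- three members are not pairwise disjoint -/
lemma tri (hF : Adm ℓ F) {A B C : Finset α} (hA : A ∈ F) (hB : B ∈ Nj F A) (hC : C ∈ Nj F A) :
    C ∉ Nj F B := by
  intro h
  rw [mem_Nj] at hB hC h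
  exact hF.no_sf A hA B hB.1 C hC.1 hB.2.1 hC.2.1 h.2.1
    ⟨by rw [hB.2.2, hC.2.2], by rw [hB.2.2, h.2.2]⟩

lemma Nj_int (hF : Adm ℓ F) {B : Finset α} (hB : B ∈ F) :
    ∀ A ∈ Nj F B, ∀ C ∈ Nj F B, A ≠ C → (A ∩ C).Nonempty := by
  intro A hA C hC hAC
  by_contra hemp
  rw [Finset.not_nonempty_iff_eq_empty] at hemp
  exact tri hF hB hA hC (mem_Nj.2 ⟨(mem_Nj.1 hC).1, hAC, hemp⟩)

lemma card_Nj_le (hF : Adm ℓ F) (hd : ∀ x, 200 * (F.filter (fun A => x ∈ A)).card ≤ 201 * ℓ)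
    {B : Finset α} (hB : B ∈ F) : 4 * (Nj F B).card ≤ 3 * ℓ ^ 2 + 12 := by
  refine near_int (hF.subset (Nj_subset B)) (Nj_int hF hB) fun x => ?_
  have h1 : ((Nj F B).filter (fun A => x ∈ A)).card ≤ (F.filter (fun A => x ∈ A)).card :=
    Finset.card_le_card (Finset.filter_subset_filter _ (Nj_subset B))
  have h2 := hd x
  omega

lemma sum_card_Nj : ∑ B ∈ F, ((Nj F B).card : ℝ) = ∑ A ∈ F, ∑ B ∈ F, ne1 A B * (1 - mt A B) := by
  refine Finset.sum_congr rfl fun B _ => ?_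
  unfold Nj
  rw [Finset.card_filter, Nat.cast_sum]
  refine Finset.sum_congr rfl fun A _ => ?_
  unfold ne1 Fu.mt
  by_cases h1 : B = A
  · simp [h1]
  · by_cases h2 : (B ∩ A).card = 0
    · rw [if_neg h1, if_pos h2, if_pos ⟨h1, Finset.card_eq_zero.1 h2⟩]; norm_num
    · rw [if_neg h1, if_neg h2, if_neg (fun h => h2 (Finset.card_eq_zero.2 h.2))]; norm_num

/-- every member is disjoint from many others -/
lemma card_Nj_ge (hF : Adm ℓ F) (hd : ∀ x, 200 * (F.filter (fun A => x ∈ A)).card ≤ 201 * ℓ)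
    {E : Finset α} (hE : E ∈ F) :
    200 * F.card + 200 * ℓ ≤ 200 * (Nj F E).card + 200 + 201 * ℓ ^ 2 := by
  have hsub : F ⊆ Nj F E ∪ ({E} ∪ E.biUnion (fun x => (F.filter (fun A => x ∈ A)).erase E)) := by
    intro A hA
    rw [Finset.mem_union, Finset.mem_union, Finset.mem_singleton]
    by_cases h1 : E = A
    · exact Or.inr (Or.inl h1.symm)
    · by_cases h2 : E ∩ A = ∅
      · exact Or.inl (mem_Nj.2 ⟨hA, h1, h2⟩)
      · obtain ⟨x, hx⟩ := Finset.nonempty_iff_ne_empty.2 h2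
        rw [Finset.mem_inter] at hx
        exact Or.inr (Or.inr (Finset.mem_biUnion.2 ⟨x, hx.1,
          Finset.mem_erase.2 ⟨Ne.symm h1, Finset.mem_filter.2 ⟨hA, hx.2⟩⟩⟩))
  have h1 := (Finset.card_le_card hsub).trans ((Finset.card_union_le _ _).trans
    (Nat.add_le_add_left ((Finset.card_union_le _ _).trans
      (Nat.add_le_add_left Finset.card_biUnion_le _)) _))
  rw [Finset.card_singleton] at h1
  have h2 : 200 * ∑ x ∈ E, ((F.filter (fun A => x ∈ A)).erase E).card + 200 * ℓ ≤ 201 * ℓ ^ 2 := by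
    have h3 : ∀ x ∈ E, 200 * ((F.filter (fun A => x ∈ A)).erase E).card + 200 ≤ 201 * ℓ := by
      intro x hx
      have h4 : E ∈ F.filter (fun A => x ∈ A) := Finset.mem_filter.2 ⟨hE, hx⟩
      have h5 := Finset.card_erase_of_mem h4
      have h6 := Finset.card_pos.2 ⟨E, h4⟩
      have h7 := hd x
      omega
    have h4 := Finset.sum_le_sum h3
    rw [Finset.sum_add_distrib, ← Finset.mul_sum, Finset.sum_const, Finset.sum_const, smul_eq_mul,
      smul_eq_mul, hF.card_eq E hE] at h4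
    nlinarith
  omega

/-- the members with a small neighbourhood are few -/
lemma few_bad (hF : Adm ℓ F) (hne : F.Nonempty)
    (hd : ∀ x, 200 * (F.filter (fun A => x ∈ A)).card ≤ 201 * ℓ)
    (hN : 3 * ℓ ^ 2 + 12 < 2 * F.card) (hℓ : 200 ≤ ℓ) (t : ℝ) :
    t * ((F.filter (fun B => ((Nj F B).card : ℝ) < (3 * (ℓ : ℝ) ^ 2 + 12) / 4 -
      t * (ℓ : ℝ) ^ 2)).card : ℝ) ≤ 3 / 800 * F.card := by
  classical
  set X : Finset α := F.biUnion id with hXdef
  have hX : ∀ A ∈ F, A ⊆ X := fun A hA x hx => Finset.mem_biUnion.2 ⟨A, hA, hx⟩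
  have hl : (200 : ℝ) ≤ ℓ := by exact_mod_cast hℓ
  have hL0 : (0 : ℝ) < (ℓ : ℝ) ^ 2 := by positivity
  have hdX : ∀ x ∈ X, dg F x ≤ 201 / 200 * ℓ := by
    intro x _
    rw [dg_eq]
    have h1 : 200 * ((F.filter (fun A => x ∈ A)).card : ℝ) ≤ 201 * ℓ := by exact_mod_cast hd x
    linarith
  have h1 := meet_le hF hX
  have h2 := meet_add F
  have h3 := PP_le hX hF.card_eq hdX
  have h4 : ∑ B ∈ F, ((Nj F B).card : ℝ) ≥
      F.card * (F.card - 1) - 3 / 4 * (201 / 200) * (ℓ : ℝ) ^ 2 * F.card + F.card * ℓ / 2 := by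
    rw [sum_card_Nj]
    nlinarith
  have hN' : 3 * (ℓ : ℝ) ^ 2 + 12 < 2 * F.card := by exact_mod_cast hN
  have hNp : (0 : ℝ) < F.card := by exact_mod_cast hne.card_pos
  have h5 : ∑ B ∈ F, ((3 * (ℓ : ℝ) ^ 2 + 12) / 4 - (Nj F B).card) ≤
      3 / 800 * (ℓ : ℝ) ^ 2 * F.card := by
    rw [Finset.sum_sub_distrib, Finset.sum_const, nsmul_eq_mul]
    nlinarith
  have h6 : t * (ℓ : ℝ) ^ 2 * ((F.filter (fun B => ((Nj F B).card : ℝ) <
      (3 * (ℓ : ℝ) ^ 2 + 12) / 4 - t * (ℓ : ℝ) ^ 2)).card : ℝ) ≤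
      ∑ B ∈ F, ((3 * (ℓ : ℝ) ^ 2 + 12) / 4 - (Nj F B).card) := by
    calc _ = ∑ _B ∈ F.filter (fun B => ((Nj F B).card : ℝ) <
        (3 * (ℓ : ℝ) ^ 2 + 12) / 4 - t * (ℓ : ℝ) ^ 2), t * (ℓ : ℝ) ^ 2 := by
          rw [Finset.sum_const, nsmul_eq_mul, mul_comm]
      _ ≤ ∑ B ∈ F.filter (fun B => ((Nj F B).card : ℝ) <
        (3 * (ℓ : ℝ) ^ 2 + 12) / 4 - t * (ℓ : ℝ) ^ 2),
          ((3 * (ℓ : ℝ) ^ 2 + 12) / 4 - (Nj F B).card) := by
          refine Finset.sum_le_sum fun B hB => ?_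
          have := (Finset.mem_filter.1 hB).2
          linarith
      _ ≤ _ := by
          refine Finset.sum_le_sum_of_subset_of_nonneg (Finset.filter_subset _ _) fun B hB _ => ?_
          have : 4 * ((Nj F B).card : ℝ) ≤ 3 * (ℓ : ℝ) ^ 2 + 12 := by
            exact_mod_cast card_Nj_le hF hd hB
          linarith
  have h7 := h6.trans h5
  refine le_of_mul_le_mul_left ?_ hL0
  linarith

/-- two members with many neighbours in a small set are not disjoint -/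
lemma side (hF : Adm ℓ F) {G : Finset (Finset α)} {E E' : Finset α} (hE : E ∈ F) (hE' : E' ∈ F)
    (hne : E ≠ E') {g : ℝ} (h1 : g ≤ ((Nj F E ∩ G).card : ℝ)) (h2 : g ≤ ((Nj F E' ∩ G).card : ℝ))
    (hG : (G.card : ℝ) < 2 * g) : (E ∩ E').Nonempty := by
  by_contra hemp
  rw [Finset.not_nonempty_iff_eq_empty] at hemp
  have h3 : ¬ Disjoint (Nj F E ∩ G) (Nj F E' ∩ G) := by
    intro hdis
    have h4 := Finset.card_union_of_disjoint hdis
    have h5 : ((Nj F E ∩ G) ∪ (Nj F E' ∩ G)).card ≤ G.card :=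
      Finset.card_le_card (Finset.union_subset Finset.inter_subset_right Finset.inter_subset_right)
    rw [h4] at h5
    have h6 : ((Nj F E ∩ G).card : ℝ) + ((Nj F E' ∩ G).card : ℝ) ≤ G.card := by exact_mod_cast h5
    linarith
  obtain ⟨R, hR1, hR2⟩ := Finset.not_disjoint_iff.1 h3
  have hR1 := (Finset.mem_inter.1 hR1).1
  have hR2 := (Finset.mem_inter.1 hR2).1
  exact tri hF (mem_Nj.1 hR1).1 (Nj_symm hE hR1) (Nj_symm hE' hR2) (mem_Nj.2 ⟨hE', hne, hemp⟩)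

/-- a neighbour of `E` on one side with a large neighbourhood leaves little room on the other -/
lemma other_side (hF : Adm ℓ F) {A B E P : Finset α} (hB : B ∈ F) (hE : E ∈ F)
    (hPE : P ∈ Nj F E) (hPB : P ∈ Nj F B) {c u : ℝ}
    (hC : (((F \ (Nj F A ∪ Nj F B)).card : ℕ) : ℝ) ≤ c) (hu : u ≤ ((Nj F P).card : ℝ)) :
    ((Nj F E ∩ Nj F A).card : ℝ) ≤ (Nj F A).card - u + c := by
  have h1 : Nj F P ⊆ (Nj F P ∩ Nj F A) ∪ (F \ (Nj F A ∪ Nj F B)) := by
    intro R hR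
    have hRF := (mem_Nj.1 hR).1
    by_cases hRA : R ∈ Nj F A
    · exact Finset.mem_union_left _ (Finset.mem_inter.2 ⟨hR, hRA⟩)
    · refine Finset.mem_union_right _ (Finset.mem_sdiff.2 ⟨hRF, ?_⟩)
      rw [Finset.mem_union]
      rintro (h | h)
      · exact hRA h
      · exact tri hF hB hPB h hR
  have h2 := (Finset.card_le_card h1).trans (Finset.card_union_le _ _)
  have h3 : ((Nj F P).card : ℝ) ≤ ((Nj F P ∩ Nj F A).card : ℝ) +
      (((F \ (Nj F A ∪ Nj F B)).card : ℕ) : ℝ) := by exact_mod_cast h2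
  have hdis : Disjoint (Nj F E ∩ Nj F A) (Nj F P ∩ Nj F A) := by
    rw [Finset.disjoint_left]
    intro R hR1 hR2
    exact tri hF hE hPE (Finset.mem_inter.1 hR1).1 (Finset.mem_inter.1 hR2).1
  have h4 : ((Nj F E ∩ Nj F A) ∪ (Nj F P ∩ Nj F A)).card ≤ (Nj F A).card :=
    Finset.card_le_card (Finset.union_subset Finset.inter_subset_right Finset.inter_subset_right)
  rw [Finset.card_union_of_disjoint hdis] at h4
  have h5 : ((Nj F E ∩ Nj F A).card : ℝ) + ((Nj F P ∩ Nj F A).card : ℝ) ≤ (Nj F A).card := by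
    exact_mod_cast h4
  linarith

theorem gen_core (hF : Adm ℓ F) (hd : ∀ x, 200 * (F.filter (fun A => x ∈ A)).card ≤ 201 * ℓ)
    (hℓ : 200 ≤ ℓ) (hN : 3 * ℓ ^ 2 + 12 < 2 * F.card) (hN2 : 2 * F.card ≤ 3 * ℓ ^ 2 + 14) :
    False := by
  classical
  have hne : F.Nonempty := by
    rw [← Finset.card_pos]
    omega
  have hl : (200 : ℝ) ≤ ℓ := by exact_mod_cast hℓ
  obtain ⟨L, hL⟩ : ∃ L : ℝ, L = (ℓ : ℝ) ^ 2 := ⟨_, rfl⟩
  have hL1 : 40000 ≤ L := by rw [hL]; nlinarith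
  have hN' : 3 * L + 12 < 2 * F.card := by rw [hL]; exact_mod_cast hN
  have hN2' : 2 * (F.card : ℝ) ≤ 3 * L + 14 := by rw [hL]; exact_mod_cast hN2
  have hUp : ∀ B ∈ F, ((Nj F B).card : ℝ) ≤ (3 * L + 12) / 4 := by
    intro B hB
    have : 4 * ((Nj F B).card : ℝ) ≤ 3 * L + 12 := by
      rw [hL]; exact_mod_cast card_Nj_le hF hd hB
    linarith
  have hLo : ∀ E ∈ F, 495 / 1000 * L + 5 ≤ ((Nj F E).card : ℝ) := by
    intro E hE
    have h1 : 200 * (F.card : ℝ) + 200 * ℓ ≤ 200 * ((Nj F E).card : ℝ) + 200 + 201 * L := by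
      rw [hL]; exact_mod_cast card_Nj_ge hF hd hE
    linarith
  have hb1 := few_bad hF hne hd hN hℓ (1 / 50)
  have hb2 := few_bad hF hne hd hN hℓ (1 / 10)
  rw [← hL] at hb1 hb2
  set B1 := F.filter (fun B => ((Nj F B).card : ℝ) < (3 * L + 12) / 4 - 1 / 50 * L) with hB1
  set B2 := F.filter (fun B => ((Nj F B).card : ℝ) < (3 * L + 12) / 4 - 1 / 10 * L) with hB2
  have good1 : ∀ A ∈ F, A ∉ B1 → (3 * L + 12) / 4 - 1 / 50 * L ≤ ((Nj F A).card : ℝ) := by
    intro A hA h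
    by_contra hcon
    rw [not_le] at hcon
    exact h (Finset.mem_filter.2 ⟨hA, hcon⟩)
  have good2 : ∀ A ∈ F, A ∉ B2 → (3 * L + 12) / 4 - 1 / 10 * L ≤ ((Nj F A).card : ℝ) := by
    intro A hA h
    by_contra hcon
    rw [not_le] at hcon
    exact h (Finset.mem_filter.2 ⟨hA, hcon⟩)
  -- the edge
  obtain ⟨A, hA, hA1⟩ : ∃ A ∈ F, A ∉ B1 := by
    by_contra hcon
    push Not at hcon
    have h1 : (F.card : ℝ) ≤ B1.card := by exact_mod_cast Finset.card_le_card hcon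
    linarith
  have hAc := good1 A hA hA1
  obtain ⟨B, hBA, hB1'⟩ : ∃ B ∈ Nj F A, B ∉ B1 := by
    by_contra hcon
    push Not at hcon
    have h1 : ((Nj F A).card : ℝ) ≤ B1.card := by exact_mod_cast Finset.card_le_card hcon
    linarith
  have hB : B ∈ F := (mem_Nj.1 hBA).1
  have hBc := good1 B hB hB1'
  have hAUp := hUp A hA
  have hBUp := hUp B hB
  have hdisAB : Disjoint (Nj F A) (Nj F B) := by
    rw [Finset.disjoint_left]
    intro R hR1 hR2
    exact tri hF hA hBA hR1 hR2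
  have hC : (((F \ (Nj F A ∪ Nj F B)).card : ℕ) : ℝ) ≤ L / 25 + 1 := by
    have h1 : (F \ (Nj F A ∪ Nj F B)).card + (Nj F A ∪ Nj F B).card = F.card :=
      Finset.card_sdiff_add_card_eq_card (Finset.union_subset (Nj_subset A) (Nj_subset B))
    rw [Finset.card_union_of_disjoint hdisAB] at h1
    have h2 : (((F \ (Nj F A ∪ Nj F B)).card : ℕ) : ℝ) + (((Nj F A).card : ℝ) + (Nj F B).card) =
      F.card := by exact_mod_cast h1
    linarith
  have hC' : (((F \ (Nj F B ∪ Nj F A)).card : ℕ) : ℝ) ≤ L / 25 + 1 := by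
    rw [Finset.union_comm]; exact hC
  have hB2c : (B2.card : ℝ) ≤ 3 / 80 * F.card := by linarith
  -- the cover of a neighbourhood
  have hcover : ∀ E ∈ F, ((Nj F E).card : ℝ) ≤ ((Nj F E ∩ Nj F A).card : ℝ) +
      ((Nj F E ∩ Nj F B).card : ℝ) + (L / 25 + 1) := by
    intro E hE
    have h1 : Nj F E ⊆ ((Nj F E ∩ Nj F A) ∪ (Nj F E ∩ Nj F B)) ∪ (F \ (Nj F A ∪ Nj F B)) := by
      intro R hR
      have hRF := (mem_Nj.1 hR).1
      rw [Finset.mem_union, Finset.mem_union, Finset.mem_inter, Finset.mem_inter,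
        Finset.mem_sdiff, Finset.mem_union]
      tauto
    have h2 := (Finset.card_le_card h1).trans ((Finset.card_union_le _ _).trans
      (Nat.add_le_add_right (Finset.card_union_le _ _) _))
    have h3 : ((Nj F E).card : ℝ) ≤ ((Nj F E ∩ Nj F A).card : ℝ) +
      ((Nj F E ∩ Nj F B).card : ℝ) + (((F \ (Nj F A ∪ Nj F B)).card : ℕ) : ℝ) := by
      exact_mod_cast h2
    linarith
  -- a member with a good neighbour on the side of `B` has few neighbours on the side of `A`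
  have hsB : ∀ E ∈ F, (∃ P ∈ Nj F E ∩ Nj F B, P ∉ B2) →
      ((Nj F E ∩ Nj F A).card : ℝ) ≤ 14 / 100 * L + 1 := by
    rintro E hE ⟨P, hP, hP2⟩
    obtain ⟨hPE, hPB⟩ := Finset.mem_inter.1 hP
    have h1 := other_side hF hB hE hPE hPB hC (good2 P (mem_Nj.1 hPE).1 hP2)
    linarith
  have hsA : ∀ E ∈ F, (∃ P ∈ Nj F E ∩ Nj F A, P ∉ B2) →
      ((Nj F E ∩ Nj F B).card : ℝ) ≤ 14 / 100 * L + 1 := by
    rintro E hE ⟨P, hP, hP2⟩
    obtain ⟨hPE, hPA⟩ := Finset.mem_inter.1 hP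
    have h1 := other_side hF hA hE hPE hPA hC' (good2 P (mem_Nj.1 hPE).1 hP2)
    linarith
  have hnoA : ∀ E ∈ F, (¬ ∃ P ∈ Nj F E ∩ Nj F A, P ∉ B2) →
      ((Nj F E ∩ Nj F A).card : ℝ) ≤ B2.card := by
    intro E _ h
    push Not at h
    exact_mod_cast Finset.card_le_card h
  have hnoB : ∀ E ∈ F, (¬ ∃ P ∈ Nj F E ∩ Nj F B, P ∉ B2) →
      ((Nj F E ∩ Nj F B).card : ℝ) ≤ B2.card := by
    intro E _ h
    push Not at h
    exact_mod_cast Finset.card_le_card h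
  -- the two classes
  set Ta := F.filter (fun E => ∃ P ∈ Nj F E ∩ Nj F A, P ∉ B2) with hTa
  set Tb := F.filter (fun E => ¬ ∃ P ∈ Nj F E ∩ Nj F A, P ∉ B2) with hTb
  have hcardT : Ta.card + Tb.card = F.card := by
    rw [hTa, hTb, Finset.card_filter_add_card_filter_not]
  have ha : ∀ E ∈ Ta, E ∈ F ∧ 398 / 1000 * L + 3 ≤ ((Nj F E ∩ Nj F A).card : ℝ) := by
    intro E hE
    obtain ⟨hEF, hEa⟩ := Finset.mem_filter.1 hE
    have h1 := hsA E hEF hEa
    have h2 := hcover E hEF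
    have h3 := hLo E hEF
    refine ⟨hEF, ?_⟩
    by_cases hb : ∃ P ∈ Nj F E ∩ Nj F B, P ∉ B2
    · have := hsB E hEF hb
      linarith
    · have := hnoB E hEF hb
      linarith
  have hb : ∀ E ∈ Tb, E ∈ F ∧ 398 / 1000 * L + 3 ≤ ((Nj F E ∩ Nj F B).card : ℝ) := by
    intro E hE
    obtain ⟨hEF, hEa⟩ := Finset.mem_filter.1 hE
    have h1 := hnoA E hEF hEa
    have h2 := hcover E hEF
    have h3 := hLo E hEF
    exact ⟨hEF, by linarith⟩
  have hsubT : ∀ T : Finset (Finset α), T ⊆ F →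
      ∀ x, 200 * (T.filter (fun A => x ∈ A)).card ≤ 201 * ℓ := by
    intro T hT x
    have h1 : (T.filter (fun A => x ∈ A)).card ≤ (F.filter (fun A => x ∈ A)).card :=
      Finset.card_le_card (Finset.filter_subset_filter _ hT)
    have h2 := hd x
    omega
  have hTaF : Ta ⊆ F := Finset.filter_subset _ _
  have hTbF : Tb ⊆ F := Finset.filter_subset _ _
  have h1 := near_int (hF.subset hTaF) (fun E hE E' hE' hne' =>
    side hF (ha E hE).1 (ha E' hE').1 hne' (ha E hE).2 (ha E' hE').2 (by linarith)) (hsubT Ta hTaF)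
  have h2 := near_int (hF.subset hTbF) (fun E hE E' hE' hne' =>
    side hF (hb E hE).1 (hb E' hE').1 hne' (hb E hE).2 (hb E' hE').2 (by linarith)) (hsubT Tb hTbF)
  omega

/-- **Families with degrees at most `(201/200) ℓ`.** -/
theorem near_gen (hF : Adm ℓ F) (hd : ∀ x, 200 * (F.filter (fun A => x ∈ A)).card ≤ 201 * ℓ) :
    2 * F.card ≤ 3 * ℓ ^ 2 + 12 := by
  classical
  rcases F.eq_empty_or_nonempty with h0 | hne
  · rw [h0]; simp
  by_contra hcon
  rw [not_le] at hcon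
  rcases lt_or_ge ℓ 200 with hℓ | hℓ
  · set X : Finset α := F.biUnion id with hXdef
    have hX : ∀ A ∈ F, A ⊆ X := fun A hA x hx => Finset.mem_biUnion.2 ⟨A, hA, hx⟩
    have h1 : ∀ x ∈ X, dg F x ≤ ℓ := by
      intro x _
      rw [dg_eq]
      have := hd x
      exact_mod_cast (by omega : (F.filter (fun A => x ∈ A)).card ≤ ℓ)
    have h2 := deg_bound hF hne hX h1
    have h3 : 3 * (ℓ : ℝ) ^ 2 + 12 < 2 * F.card := by exact_mod_cast hcon
    have h4 : (0 : ℝ) ≤ ℓ := Nat.cast_nonneg _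
    nlinarith
  · obtain ⟨G, hGF, hG⟩ := Finset.exists_subset_card_eq
      (show (3 * ℓ ^ 2 + 12) / 2 + 1 ≤ F.card by omega)
    refine gen_core (hF.subset hGF) (fun x => ?_) hℓ (by omega) (by omega)
    have h1 : (G.filter (fun A => x ∈ A)).card ≤ (F.filter (fun A => x ∈ A)).card :=
      Finset.card_le_card (Finset.filter_subset_filter _ hGF)
    have h2 := hd x
    omega

end Pool.Agent.Work.MP_49280d_co.Dg
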