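import Pool.Agent.Work.MP_49280d_co.Dg.Low
import Pool.Agent.Work.MP_49280d_co.Dg.Gen

/-!
# The limsup for families with bounded degrees
-/

set_option autoImplicit false

open Finset Filter Topology

namespace Pool.Agent.Work.MP_49280d_co.Dg

/-- the number of members containing `x` -/
def degN (F : Finset (Finset ℕ)) (x : ℕ) : ℕ := (F.filter (fun A => x ∈ A)).card

/-- The largest number of members of an admissible family of `l`-sets in which every point lies in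
at most `δ l` members. -/
noncomputable def MD (δ : ℝ) (l : ℕ) : ℕ :=
  sSup {N | ∃ F : Finset (Finset ℕ), Adm l F ∧ (∀ x, (degN F x : ℝ) ≤ δ * l) ∧ F.card = N}

lemma toFu {l : ℕ} {F : Finset (Finset ℕ)} (h : Adm l F) : Fu.Adm l F :=
  ⟨h.1, h.2.1, fun A hA B hB C hC hAB hAC hBC hcon =>
    h.2.2 A hA B hB C hC hAB hAC hBC ⟨hcon.1, hcon.1.symm.trans hcon.2⟩⟩

theorem deg_gen {l Δ : ℕ} {F : Finset (Finset ℕ)} (h : Adm l F) (hne : F.Nonempty)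
    (hd : ∀ x, degN F x ≤ Δ) : 2 * F.card + 2 * l ≤ 3 * Δ * l + 4 := by
  have h1 := deg_bound (toFu h) hne (X := F.biUnion id)
    (fun A hA x hx => Finset.mem_biUnion.2 ⟨A, hA, hx⟩) (Δ := Δ) (fun x _ => by
      rw [Fu.dg_eq]
      exact_mod_cast hd x)
  have h2 : 2 * (F.card : ℝ) + 2 * l ≤ 3 * Δ * l + 4 := by linarith
  exact_mod_cast h2

theorem deg_int {l Δ : ℕ} {F : Finset (Finset ℕ)} (h : Adm l F) (hne : F.Nonempty)
    (hi : ∀ A ∈ F, ∀ B ∈ F, (A ∩ B).Nonempty) (hd : ∀ x, degN F x ≤ Δ) :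
    4 * F.card + 2 * l ≤ 3 * Δ * l + 4 := by
  have h1 := deg_bound_int (toFu h) hne (X := F.biUnion id)
    (fun A hA x hx => Finset.mem_biUnion.2 ⟨A, hA, hx⟩) (fun A hA B hB _ => hi A hA B hB)
    (Δ := Δ) (fun x _ => by
      rw [Fu.dg_eq]
      exact_mod_cast hd x)
  have h2 : 4 * (F.card : ℝ) + 2 * l ≤ 3 * Δ * l + 4 := by linarith
  exact_mod_cast h2

lemma mem_le_MD {δ : ℝ} {l : ℕ} {F : Finset (Finset ℕ)} (h : Adm l F)
    (hd : ∀ x, (degN F x : ℝ) ≤ δ * l) : F.card ≤ MD δ l := by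
  refine le_csSup ⟨M3 l, ?_⟩ ⟨F, h, hd, rfl⟩
  rintro N ⟨G, hG, _, rfl⟩
  exact hG.le_M3

lemma MD_le {δ : ℝ} {l : ℕ} {K : ℕ} (hK : ∀ F : Finset (Finset ℕ), Adm l F →
    (∀ x, (degN F x : ℝ) ≤ δ * l) → F.card ≤ K) : MD δ l ≤ K := by
  unfold MD
  rcases Set.eq_empty_or_nonempty
    {N | ∃ F : Finset (Finset ℕ), Adm l F ∧ (∀ x, (degN F x : ℝ) ≤ δ * l) ∧ F.card = N} with h | h
  · rw [h, csSup_empty]
    exact Nat.zero_le _
  · refine csSup_le h ?_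
    rintro N ⟨F, hF, hd, rfl⟩
    exact hK F hF hd

/-- the maximum is attained -/
theorem exists_MD (δ : ℝ) (hδ : 0 ≤ δ) (l : ℕ) : ∃ F : Finset (Finset ℕ), Adm l F ∧
    (∀ x, (degN F x : ℝ) ≤ δ * l) ∧ F.card = MD δ l := by
  have hne : {N | ∃ F : Finset (Finset ℕ), Adm l F ∧ (∀ x, (degN F x : ℝ) ≤ δ * l) ∧
      F.card = N}.Nonempty := by
    refine ⟨0, ∅, ⟨?_, ?_, ?_⟩, fun x => ?_, rfl⟩
    · simp
    · simp
    · simp
    · unfold degN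
      simp only [Finset.filter_empty, Finset.card_empty, Nat.cast_zero]
      positivity
  have hb : BddAbove {N | ∃ F : Finset (Finset ℕ), Adm l F ∧ (∀ x, (degN F x : ℝ) ≤ δ * l) ∧
      F.card = N} := by
    refine ⟨M3 l, ?_⟩
    rintro N ⟨G, hG, _, rfl⟩
    exact hG.le_M3
  exact Nat.sSup_mem hne hb

theorem upper_gen {δ : ℝ} (hδ0 : 0 < δ) (hδ : δ ≤ 201 / 200) {l : ℕ} {F : Finset (Finset ℕ)}
    (hF : Adm l F) (hd : ∀ x, (degN F x : ℝ) ≤ δ * l) :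
    (F.card : ℝ) ≤ 3 / 2 * min δ 1 * (l : ℝ) ^ 2 + 6 := by
  rcases F.eq_empty_or_nonempty with h0 | hne
  · rw [h0]
    simp only [Finset.card_empty, Nat.cast_zero]
    have : 0 ≤ min δ 1 := le_min hδ0.le (by norm_num)
    positivity
  rcases le_total δ 1 with h | h
  · rw [min_eq_left h]
    have h1 := deg_bound (toFu hF) hne (X := F.biUnion id)
      (fun A hA x hx => Finset.mem_biUnion.2 ⟨A, hA, hx⟩) (Δ := δ * l) (fun x _ => by
        rw [Fu.dg_eq]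
        exact hd x)
    have h2 : (0 : ℝ) ≤ l := Nat.cast_nonneg _
    nlinarith
  · rw [min_eq_right h]
    have h1 := near_gen (toFu hF) (fun x => by
      have h2 := hd x
      have h3 : (0 : ℝ) ≤ l := Nat.cast_nonneg _
      have h4 : 200 * (degN F x : ℝ) ≤ 201 * l := by nlinarith
      exact_mod_cast h4)
    have h2 : 2 * (F.card : ℝ) ≤ 3 * (l : ℝ) ^ 2 + 12 := by exact_mod_cast h1
    linarith

theorem upper_int {δ : ℝ} (hδ0 : 0 < δ) (hδ : δ ≤ 201 / 200) {l : ℕ} {F : Finset (Finset ℕ)}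
    (hF : Adm l F) (hi : ∀ A ∈ F, ∀ B ∈ F, (A ∩ B).Nonempty)
    (hd : ∀ x, (degN F x : ℝ) ≤ δ * l) :
    (F.card : ℝ) ≤ 3 / 4 * min δ 1 * (l : ℝ) ^ 2 + 3 := by
  rcases F.eq_empty_or_nonempty with h0 | hne
  · rw [h0]
    simp only [Finset.card_empty, Nat.cast_zero]
    have : 0 ≤ min δ 1 := le_min hδ0.le (by norm_num)
    positivity
  rcases le_total δ 1 with h | h
  · rw [min_eq_left h]
    have h1 := deg_bound_int (toFu hF) hne (X := F.biUnion id)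
      (fun A hA x hx => Finset.mem_biUnion.2 ⟨A, hA, hx⟩) (fun A hA B hB _ => hi A hA B hB)
      (Δ := δ * l) (fun x _ => by
        rw [Fu.dg_eq]
        exact hd x)
    have h2 : (0 : ℝ) ≤ l := Nat.cast_nonneg _
    nlinarith
  · rw [min_eq_right h]
    have h1 := near_int (toFu hF) (fun A hA B hB _ => hi A hA B hB) (fun x => by
      have h2 := hd x
      have h3 : (0 : ℝ) ≤ l := Nat.cast_nonneg _
      have h4 : 200 * (degN F x : ℝ) ≤ 201 * l := by nlinarith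
      exact_mod_cast h4)
    have h2 : 4 * (F.card : ℝ) ≤ 3 * (l : ℝ) ^ 2 + 12 := by exact_mod_cast h1
    linarith

lemma upper {δ : ℝ} (hδ0 : 0 < δ) (hδ : δ ≤ 201 / 200) (l : ℕ) :
    (MD δ l : ℝ) ≤ 3 / 2 * min δ 1 * (l : ℝ) ^ 2 + 6 := by
  obtain ⟨F, hF, hd, hc⟩ := exists_MD δ hδ0.le l
  rw [← hc]
  exact upper_gen hδ0 hδ hF hd

theorem lower_fam (k t : ℕ) (ht : t ≤ 2 * 4 ^ k) : ∃ F : Finset (Finset ℕ),
    Adm (4 ^ (k + 1) + 6 * 2 ^ k) F ∧ (∀ x, degN F x ≤ max (2 * t) (12 * 2 ^ k)) ∧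
      F.card = 12 * 4 ^ k * t := by
  have h : (4 : ℕ) ^ k = (2 ^ k) ^ 2 := by
    rw [← pow_mul, mul_comm k 2, pow_mul]
    norm_num
  have h1 : 1 ≤ 2 ^ k := Nat.one_le_two_pow
  have g := good_powD k t (by rw [← h]; exact ht)
  obtain ⟨F, hF, hd, hc⟩ := g.two (by nlinarith)
  have e : 4 ^ (k + 1) + 6 * 2 ^ k = 4 * (2 ^ k) ^ 2 + 6 * 2 ^ k := by rw [pow_succ, h]; ring
  refine ⟨F, by rw [e]; exact hF, hd, ?_⟩
  rw [hc, h]; ring

theorem lower_int (k t : ℕ) (ht : t ≤ 2 * 4 ^ k) : ∃ F : Finset (Finset ℕ),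
    Adm (4 ^ (k + 1) + 6 * 2 ^ k) F ∧ (∀ A ∈ F, ∀ B ∈ F, (A ∩ B).Nonempty) ∧
      (∀ x, degN F x ≤ max (2 * t) (12 * 2 ^ k)) ∧ F.card = 6 * 4 ^ k * t := by
  have h : (4 : ℕ) ^ k = (2 ^ k) ^ 2 := by
    rw [← pow_mul, mul_comm k 2, pow_mul]
    norm_num
  have h1 : 1 ≤ 2 ^ k := Nat.one_le_two_pow
  have g := good_powD k t (by rw [← h]; exact ht)
  obtain ⟨F, hF, hi, hd, hc⟩ := g.one (by nlinarith)
  have e : 4 ^ (k + 1) + 6 * 2 ^ k = 4 * (2 ^ k) ^ 2 + 6 * 2 ^ k := by rw [pow_succ, h]; ring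
  refine ⟨F, by rw [e]; exact hF, hi, hd, ?_⟩
  rw [hc, h]

/-- both constructions, for the degree bound `δ l` -/
theorem lower_pair {δ : ℝ} (hδ0 : 0 < δ) (k : ℕ) (hk : 3 ≤ δ * 2 ^ k) :
    ∃ F G : Finset (Finset ℕ), Adm (4 ^ (k + 1) + 6 * 2 ^ k) F ∧ Adm (4 ^ (k + 1) + 6 * 2 ^ k) G ∧
      (∀ A ∈ G, ∀ B ∈ G, (A ∩ B).Nonempty) ∧
      (∀ x, (degN F x : ℝ) ≤ δ * (4 ^ (k + 1) + 6 * 2 ^ k : ℕ)) ∧
      (∀ x, (degN G x : ℝ) ≤ δ * (4 ^ (k + 1) + 6 * 2 ^ k : ℕ)) ∧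
      24 * min δ 1 * 16 ^ k - 12 * 4 ^ k ≤ (F.card : ℝ) ∧
      12 * min δ 1 * 16 ^ k - 6 * 4 ^ k ≤ (G.card : ℝ) := by
  set μ := min δ 1 with hμ
  have hμ0 : 0 < μ := lt_min hδ0 (by norm_num)
  have hμδ : μ ≤ δ := min_le_left _ _
  have hμ1 : μ ≤ 1 := min_le_right _ _
  have hX0 : (0 : ℝ) < 2 ^ k := by positivity
  have h4k : ((4 : ℝ) ^ k) = (2 ^ k) ^ 2 := by
    rw [← pow_mul, mul_comm k 2, pow_mul]
    norm_num
  have h16k : ((16 : ℝ) ^ k) = (2 ^ k) ^ 4 := by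
    rw [← pow_mul, mul_comm k 4, pow_mul]
    norm_num
  obtain ⟨t, ht⟩ : ∃ t : ℕ, t = ⌊μ * (2 * (2 ^ k) ^ 2)⌋₊ := ⟨_, rfl⟩
  have ht1 : (t : ℝ) ≤ μ * (2 * (2 ^ k) ^ 2) := by
    rw [ht]; exact Nat.floor_le (by positivity)
  have ht2 : μ * (2 * (2 ^ k) ^ 2) - 1 ≤ t := by
    rw [ht]
    have := Nat.lt_floor_add_one (μ * (2 * ((2 : ℝ) ^ k) ^ 2))
    linarith
  have ht3 : t ≤ 2 * 4 ^ k := by
    have h1 : (t : ℝ) ≤ 2 * 4 ^ k := by
      rw [h4k]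
      nlinarith
    exact_mod_cast h1
  have hmax : ((max (2 * t) (12 * 2 ^ k) : ℕ) : ℝ) ≤ δ * (4 ^ (k + 1) + 6 * 2 ^ k : ℕ) := by
    push_cast
    rw [pow_succ, h4k]
    refine max_le ?_ ?_
    · nlinarith [mul_pos hδ0 hX0]
    · nlinarith [mul_pos hδ0 hX0]
  obtain ⟨F, hF, hd, hc⟩ := lower_fam k t ht3
  obtain ⟨G, hG, hi, hd', hc'⟩ := lower_int k t ht3
  refine ⟨F, G, hF, hG, hi, fun x => (Nat.cast_le.2 (hd x)).trans hmax,
    fun x => (Nat.cast_le.2 (hd' x)).trans hmax, ?_, ?_⟩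
  · rw [hc]
    push_cast
    rw [h4k, h16k]
    nlinarith [pow_pos hX0 2]
  · rw [hc']
    push_cast
    rw [h4k, h16k]
    nlinarith [pow_pos hX0 2]

lemma ratio_le' (δ : ℝ) (l : ℕ) : (MD δ l : ℝ) / (l : ℝ) ^ 2 ≤ 5 := by
  have h : MD δ l ≤ M3 l := MD_le fun F hF _ => hF.le_M3
  refine le_trans ?_ (ratio_le l)
  gcongr

lemma bddU (δ : ℝ) : IsBoundedUnder (· ≤ ·) atTop (fun l : ℕ => (MD δ l : ℝ) / (l : ℝ) ^ 2) :=
  isBoundedUnder_of ⟨5, ratio_le' δ⟩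

lemma bddL (δ : ℝ) : IsBoundedUnder (· ≥ ·) atTop (fun l : ℕ => (MD δ l : ℝ) / (l : ℝ) ^ 2) :=
  isBoundedUnder_of ⟨0, fun l => by positivity⟩

/-- **The limsup for bounded degrees.** -/
theorem limsup_MD {δ : ℝ} (hδ0 : 0 < δ) (hδ : δ ≤ 201 / 200) :
    limsup (fun l : ℕ => (MD δ l : ℝ) / (l : ℝ) ^ 2) atTop = 3 / 2 * min δ 1 := by
  set μ := min δ 1 with hμ
  have hμ0 : 0 < μ := lt_min hδ0 (by norm_num)
  have hμδ : μ ≤ δ := min_le_left _ _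
  have hμ1 : μ ≤ 1 := min_le_right _ _
  apply le_antisymm
  · have h1 : Tendsto (fun l : ℕ => 3 / 2 * μ + 6 / (l : ℝ) ^ 2) atTop (𝓝 (3 / 2 * μ + 0)) := by
      refine tendsto_const_nhds.add ?_
      refine Tendsto.const_div_atTop ?_ 6
      exact (tendsto_pow_atTop (by norm_num)).comp tendsto_natCast_atTop_atTop
    rw [add_zero] at h1
    rw [← h1.limsup_eq]
    refine limsup_le_limsup ?_ (bddL δ).isCoboundedUnder_flip h1.isBoundedUnder_le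
    filter_upwards [eventually_ge_atTop 1] with l hl
    have hl0 : (0 : ℝ) < l := by exact_mod_cast hl
    rw [div_le_iff₀ (by positivity)]
    have h2 := upper hδ0 hδ l
    have h3 : (3 / 2 * μ + 6 / (l : ℝ) ^ 2) * (l : ℝ) ^ 2 = 3 / 2 * μ * (l : ℝ) ^ 2 + 6 := by
      field_simp
    rw [h3]
    exact h2
  · apply le_of_forall_lt
    intro c hc
    apply lt_of_lt_of_le (b := (c + 3 / 2 * μ) / 2) (by linarith)
    apply le_limsup_of_frequently_le _ (bddU δ)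
    -- the ratio along the sequence
    have hT : Tendsto (fun k : ℕ => (24 * μ * ((2 : ℝ) ^ k) ^ 4 - 12 * (2 ^ k) ^ 2) /
        (4 * (2 ^ k) ^ 2 + 6 * 2 ^ k) ^ 2) atTop (𝓝 (3 / 2 * μ)) := by
      have h1 : Tendsto (fun k : ℕ => (1 / 2 : ℝ) ^ k) atTop (𝓝 0) :=
        tendsto_pow_atTop_nhds_zero_of_lt_one (by norm_num) (by norm_num)
      have h2 : Tendsto (fun k : ℕ => (24 * μ - 12 * ((1 / 2 : ℝ) ^ k) ^ 2) /
          (4 + 6 * (1 / 2 : ℝ) ^ k) ^ 2) atTop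
          (𝓝 ((24 * μ - 12 * 0 ^ 2) / (4 + 6 * 0) ^ 2)) := by
        apply Tendsto.div
        · exact tendsto_const_nhds.sub (tendsto_const_nhds.mul (h1.pow 2))
        · exact (tendsto_const_nhds.add (tendsto_const_nhds.mul h1)).pow 2
        · norm_num
      have h3 : ((24 * μ - 12 * 0 ^ 2) / (4 + 6 * 0) ^ 2 : ℝ) = 3 / 2 * μ := by ring
      rw [h3] at h2
      refine h2.congr (fun k => ?_)
      have hX : (0 : ℝ) < 2 ^ k := by positivity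
      have : (1 / 2 : ℝ) ^ k = 1 / 2 ^ k := by rw [div_pow, one_pow]
      rw [this]
      field_simp
    have hev := (hT.eventually (lt_mem_nhds (show (c + 3 / 2 * μ) / 2 < 3 / 2 * μ by linarith)))
    rw [frequently_atTop]
    intro a
    obtain ⟨k₀, hk₀⟩ := eventually_atTop.1 hev
    obtain ⟨k₁, hk₁⟩ := exists_nat_ge (3 / δ)
    set k := max a (max k₀ k₁) with hkdef
    have hk := hk₀ k ((le_max_left _ _).trans (le_max_right _ _))
    have hka : a ≤ k := le_max_left _ _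
    have hkk : (k₁ : ℝ) ≤ k := by exact_mod_cast (le_max_right _ _).trans (le_max_right a _)
    have hk2 : (k : ℝ) < 2 ^ k := by exact_mod_cast Nat.lt_two_pow_self (n := k)
    have hXδ : 3 ≤ δ * 2 ^ k := by
      have h1 : 3 / δ ≤ 2 ^ k := by linarith
      rw [div_le_iff₀ hδ0] at h1
      linarith
    have hX0 : (0 : ℝ) < 2 ^ k := by positivity
    have h4k : ((4 : ℝ) ^ k) = (2 ^ k) ^ 2 := by
      rw [← pow_mul, mul_comm k 2, pow_mul]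
      norm_num
    refine ⟨4 ^ (k + 1) + 6 * 2 ^ k, ?_, ?_⟩
    · have h1 : k < 2 ^ k := Nat.lt_two_pow_self
      have h2 : 0 < 4 ^ (k + 1) := by positivity
      omega
    · refine hk.le.trans ?_
      obtain ⟨F, _, hF, _, _, hd, _, hc, _⟩ := lower_pair hδ0 k hXδ
      have h1 : F.card ≤ MD δ (4 ^ (k + 1) + 6 * 2 ^ k) := mem_le_MD hF hd
      have h16k : ((16 : ℝ) ^ k) = (2 ^ k) ^ 4 := by
        rw [← pow_mul, mul_comm k 4, pow_mul]
        norm_num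
      rw [h4k, h16k] at hc
      have h3 : 24 * μ * ((2 : ℝ) ^ k) ^ 4 - 12 * (2 ^ k) ^ 2 ≤
          (MD δ (4 ^ (k + 1) + 6 * 2 ^ k) : ℝ) := hc.trans (Nat.cast_le.2 h1)
      have h5 : (((4 ^ (k + 1) + 6 * 2 ^ k : ℕ) : ℝ)) = 4 * (2 ^ k) ^ 2 + 6 * 2 ^ k := by
        push_cast
        rw [pow_succ, h4k]
        ring
      rw [h5]
      exact div_le_div_of_nonneg_right h3 (by positivity)

end Pool.Agent.Work.MP_49280d_co.Dg
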