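import Pool.Agent.Work.MP_49280d_co.Limsup
import Pool.Agent.Work.MP_49280d_co.Fu.Upper

/-!
# Families with bounded degrees: the constructions
-/

set_option autoImplicit false

open Finset

namespace Pool.Agent.Work.MP_49280d_co.Dg

/-- a good family with degrees at most `d` -/
def GoodD (s N d : ℕ) : Prop := ∃ H : Fin N → Finset ℕ, GoodFam s H ∧
  ∀ x, (univ.filter (fun i => x ∈ H i)).card ≤ d

lemma GoodD.of_fam {ι α : Type} [Fintype ι] [DecidableEq α] [Countable α] {s N d : ℕ}
    {H : ι → Finset α} (h : GoodFam s H)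
    (hd : ∀ x, (univ.filter (fun i => x ∈ H i)).card ≤ d) (hN : N ≤ Fintype.card ι) :
    GoodD s N d := by
  classical
  obtain ⟨f, hf⟩ := exists_injective_nat α
  have hg : Function.Injective (fun i : Fin N => (Fintype.equivFin ι).symm (Fin.castLE hN i)) :=
    (Fintype.equivFin ι).symm.injective.comp (Fin.castLE_injective hN)
  refine ⟨fun i => (H ((Fintype.equivFin ι).symm (Fin.castLE hN i))).map ⟨f, hf⟩,
    (h.map ⟨f, hf⟩).comp (fun i => (Fintype.equivFin ι).symm (Fin.castLE hN i)) hg, fun x => ?_⟩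
  by_cases hx : ∃ a, f a = x
  · obtain ⟨a, rfl⟩ := hx
    refine le_trans ?_ (hd a)
    refine Finset.card_le_card_of_injOn
      (fun i : Fin N => (Fintype.equivFin ι).symm (Fin.castLE hN i)) ?_ hg.injOn
    intro i hi
    rw [Finset.mem_coe, Finset.mem_filter] at hi ⊢
    refine ⟨mem_univ _, ?_⟩
    obtain ⟨b, hb, hb2⟩ := Finset.mem_map.1 hi.2
    rw [← hf hb2]
    exact hb
  · have h0 : (univ.filter (fun i : Fin N =>
        x ∈ (H ((Fintype.equivFin ι).symm (Fin.castLE hN i))).map ⟨f, hf⟩)) = ∅ := by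
      rw [Finset.filter_eq_empty_iff]
      intro i _ hi
      obtain ⟨b, _, hb2⟩ := Finset.mem_map.1 hi
      exact hx ⟨b, hb2⟩
    rw [h0]
    simp

/-- the members of an indexed good family containing a point -/
lemma GoodFam.deg_le {ι α : Type} [Fintype ι] [DecidableEq ι] [DecidableEq α] {s : ℕ}
    {H : ι → Finset α} (h : GoodFam s H) (hs : 3 ≤ s) (x : α) :
    (univ.filter (fun i => x ∈ H i)).card ≤ 2 * s := by
  classical
  have hinj : Function.Injective H := by
    intro p q hpq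
    by_contra hne
    have := h.le p q hne
    rw [hpq, inter_self, h.card] at this
    omega
  have hF : Fu.Adm s (univ.image H) := by
    refine ⟨?_, ?_, ?_⟩
    · intro A hA
      obtain ⟨p, -, rfl⟩ := mem_image.1 hA
      exact h.card p
    · intro A hA B hB hAB
      obtain ⟨p, -, rfl⟩ := mem_image.1 hA
      obtain ⟨q, -, rfl⟩ := mem_image.1 hB
      exact h.le p q (fun e => hAB (by rw [e]))
    · intro A hA B hB C hC hAB hAC hBC
      obtain ⟨p, -, rfl⟩ := mem_image.1 hA
      obtain ⟨q, -, rfl⟩ := mem_image.1 hB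
      obtain ⟨r, -, rfl⟩ := mem_image.1 hC
      rintro ⟨h1, h2⟩
      exact h.nosun p q r (fun e => hAB (by rw [e])) (fun e => hAC (by rw [e]))
        (fun e => hBC (by rw [e])) ⟨h1, h1.symm.trans h2⟩
  refine le_trans ?_ (hF.deg_le x)
  refine Finset.card_le_card_of_injOn H ?_ hinj.injOn
  intro i hi
  rw [Finset.mem_coe, Finset.mem_filter] at hi ⊢
  exact ⟨Finset.mem_image_of_mem _ (mem_univ i), hi.2⟩

section Field

variable {F : Type} [Field F] [CharP F 2] [Fintype F] [DecidableEq F]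

omit [CharP F 2] in
/-- a point lies in at most `2 t` blocks of the restricted Gold family -/
lemma gold_deg {t : ℕ} (e : Fin t → F) (p : ZMod 3 × F × F) :
    (univ.filter (fun i : ZMod 3 × Fin t × F => p ∈ gold (i.1, e i.2.1, i.2.2))).card ≤ 2 * t := by
  classical
  obtain ⟨s, x, y⟩ := p
  have hsub : (univ.filter (fun i : ZMod 3 × Fin t × F => (s, x, y) ∈ gold (i.1, e i.2.1, i.2.2))) ⊆
      (univ : Finset (Bool × Fin t)).image (fun q => if q.1 then (s, q.2, y - (x + e q.2) ^ 3)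
        else (s - 1, q.2, y - L (e q.2) x)) := by
    rintro ⟨r, j, c⟩ hi
    rw [Finset.mem_filter] at hi
    have h1 := hi.2
    simp only [gold, mem_blk] at h1
    rw [Finset.mem_image]
    rcases h1 with ⟨h2, h3⟩ | ⟨h2, h3⟩
    · refine ⟨(true, j), mem_univ _, ?_⟩
      simp only [if_true]
      rw [h3, h2]
      simp
    · refine ⟨(false, j), mem_univ _, ?_⟩
      simp only [Bool.false_eq_true, if_false]
      rw [h3, h2]
      simp
  refine (Finset.card_le_card hsub).trans (Finset.card_image_le.trans (le_of_eq ?_))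
  rw [Finset.card_univ, Fintype.card_prod, Fintype.card_bool, Fintype.card_fin]

/-- **Restricted Gold family.** -/
theorem good_goldD (h3 : ∀ t : F, t ^ 2 + t + 1 ≠ 0) {s t : ℕ} (hs3 : 3 ≤ s)
    (hs : Good s (Fintype.card F)) (ht : t ≤ Fintype.card F) :
    GoodD (2 * Fintype.card F + s) (3 * (t * Fintype.card F)) (max (2 * t) (2 * s)) := by
  classical
  obtain ⟨H, hH⟩ := hs.to_fam F le_rfl
  obtain ⟨e, he⟩ : ∃ e : Fin t → F, Function.Injective e :=
    ⟨fun i => (Fintype.equivFin F).symm (Fin.castLE ht i),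
      (Fintype.equivFin F).symm.injective.comp (Fin.castLE_injective ht)⟩
  have key := repair (B := fun i : ZMod 3 × Fin t × F => gold (i.1, e i.2.1, i.2.2))
    (cl := fun i => (i.1, i.2.1)) (r := fun i => i.2.2) (k := 2 * Fintype.card F) hH ?_
    (fun i => gold_card _) ?_ ?_ ?_
    (fun i j l hij hil hjl => gold_nosun h3 _ _ _
      (fun h => hij (by
        simp only [Prod.mk.injEq] at h ⊢
        exact ⟨h.1, he h.2⟩))
      (fun h => hil (by
        simp only [Prod.mk.injEq] at h ⊢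
        exact ⟨h.1, he h.2⟩))
      (fun h => hjl (by
        simp only [Prod.mk.injEq] at h ⊢
        exact ⟨h.1, he h.2⟩)))
  · refine GoodD.of_fam key ?_ (by
      simp only [Fintype.card_prod, ZMod.card, Fintype.card_fin]
      exact le_rfl)
    rintro (p | ⟨c, b⟩)
    · refine le_trans (le_trans (Finset.card_le_card ?_) (gold_deg e p)) (le_max_left _ _)
      intro i hi
      rw [Finset.mem_filter] at hi ⊢
      exact ⟨hi.1, Finset.inl_mem_disjSum.1 hi.2⟩
    · refine le_trans ?_ (le_max_right _ _)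
      refine le_trans ?_ (GoodFam.deg_le hH hs3 b)
      refine Finset.card_le_card_of_injOn (fun i => i.2.2) ?_ ?_
      · intro i hi
        rw [Finset.mem_coe, Finset.mem_filter] at hi ⊢
        have h1 := Finset.inr_mem_disjSum.1 hi.2
        obtain ⟨b', hb', hb2⟩ := Finset.mem_map.1 h1
        simp only [Function.Embedding.coeFn_mk, Prod.mk.injEq] at hb2
        rw [← hb2.2]
        exact ⟨mem_univ _, hb'⟩
      · intro i hi j hj hij
        rw [Finset.mem_coe, Finset.mem_filter] at hi hj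
        obtain ⟨b1, _, hb1⟩ := Finset.mem_map.1 (Finset.inr_mem_disjSum.1 hi.2)
        obtain ⟨b2, _, hb2⟩ := Finset.mem_map.1 (Finset.inr_mem_disjSum.1 hj.2)
        simp only [Function.Embedding.coeFn_mk, Prod.mk.injEq] at hb1 hb2
        have h4 := hb1.1.trans hb2.1.symm
        simp only [Prod.mk.injEq] at h4
        exact Prod.ext h4.1 (Prod.ext h4.2 hij)
  · rintro ⟨t, e, c⟩ ⟨t', e', c'⟩ h1 h2
    simp only [Prod.mk.injEq] at h1 h2 ⊢
    exact ⟨h1.1, h1.2, h2⟩
  · rintro ⟨t, e, c⟩ ⟨t', e', c'⟩ h1 h2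
    simp only [Prod.mk.injEq] at h2
    obtain ⟨rfl, rfl⟩ := h2
    have hc : c ≠ c' := fun h => h1 (by rw [h])
    rw [← card_eq_zero]
    simp only [gold]
    rw [card_same]
    simp [hc]
  · rintro ⟨t, j, c⟩ ⟨t', j', c'⟩ h1
    rw [← card_pos]
    by_cases h : t = t'
    · subst h
      rw [gold_inter_same h3 t (fun h => h1 (by
        have hj : j = j' := he h
        simp [hj]))]
      norm_num
    · rw [gold_inter_diff h3 _ _ h]
      norm_num
  · rintro ⟨t, j, c⟩ ⟨t', j', c'⟩ h1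
    by_cases h : t = t'
    · subst h
      rw [gold_inter_same h3 t (fun h => h1 (by
        have hj : j = j' := he h
        simp [hj]))]
    · rw [gold_inter_diff h3 _ _ h]
      norm_num

end Field

theorem good_two_powD {n s t : ℕ} (hn : Odd n) (hs3 : 3 ≤ s) (hs : Good s (2 ^ n))
    (ht : t ≤ 2 ^ n) :
    GoodD (2 * 2 ^ n + s) (3 * (t * 2 ^ n)) (max (2 * t) (2 * s)) := by
  classical
  have hn0 : n ≠ 0 := by rintro rfl; exact absurd hn (by decide)
  have : Fact (Nat.Prime 2) := ⟨Nat.prime_two⟩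
  let _ : Fintype (GaloisField 2 n) := Fintype.ofFinite _
  have hcard : Fintype.card (GaloisField 2 n) = 2 ^ n := by
    rw [← Nat.card_eq_fintype_card]; exact GaloisField.card 2 n hn0
  rw [← hcard] at hs ht ⊢
  refine good_goldD (F := GaloisField 2 n) ?_ hs3 hs ht
  intro t ht
  have h2 : (2 : GaloisField 2 n) = 0 := CharTwo.two_eq_zero
  have ht3 : t ^ 3 = 1 := by linear_combination (t - 1) * ht
  have ht0 : t ≠ 0 := by rintro rfl; simp at ht
  have ht1 : t ≠ 1 := by
    rintro rfl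
    have : (1 : GaloisField 2 n) = 0 := by linear_combination ht - h2
    exact one_ne_zero this
  have ho : orderOf t = 3 := orderOf_eq_prime ht3 ht1
  have hd : orderOf t ∣ Fintype.card (GaloisField 2 n) - 1 := by
    apply orderOf_dvd_of_pow_eq_one
    exact FiniteField.pow_card_sub_one_eq_one t ht0
  rw [ho, hcard] at hd
  obtain ⟨k, rfl⟩ := hn
  have h4 : 2 ^ (2 * k + 1) % 3 = 2 := by
    rw [pow_succ, pow_mul, Nat.mul_mod, Nat.pow_mod]
    norm_num
  have h5 : 1 ≤ 2 ^ (2 * k + 1) := Nat.one_le_two_pow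
  generalize 2 ^ (2 * k + 1) = x at hd h4 h5
  omega

theorem good_powD (k t : ℕ) (ht : t ≤ 2 * (2 ^ k) ^ 2) :
    GoodD (4 * (2 ^ k) ^ 2 + 6 * 2 ^ k) (6 * (2 ^ k) ^ 2 * t) (max (2 * t) (12 * 2 ^ k)) := by
  obtain ⟨n', hn', h1, h2⟩ : ∃ n', Odd n' ∧ k ≤ n' ∧ n' ≤ k + 1 := by
    rcases Nat.even_or_odd k with h | h
    · exact ⟨k + 1, h.add_one, by omega, le_rfl⟩
    · exact ⟨k, h, le_rfl, by omega⟩
  have h3 : 2 ^ k ≤ 2 ^ n' := Nat.pow_le_pow_right (by norm_num) h1
  have h4 : 2 ^ n' ≤ 2 ^ (k + 1) := Nat.pow_le_pow_right (by norm_num) h2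
  have h5 : 2 ^ (2 * k + 1) = 2 * (2 ^ k) ^ 2 := by rw [pow_succ, pow_mul']; ring
  have h6 : 2 ^ (k + 1) = 2 * 2 ^ k := by rw [pow_succ]; ring
  have h7 : 1 ≤ 2 ^ k := Nat.one_le_two_pow
  have g1 : Good (2 * 2 ^ n' + (2 ^ n' - 1)) (3 * (2 ^ n') ^ 2) :=
    good_two_pow hn' (good_base _)
  have g2 : Good (6 * 2 ^ k) (2 ^ (2 * k + 1)) := by
    refine (g1.mono ?_).pad (by omega)
    rw [h5]
    nlinarith [Nat.pow_le_pow_left h3 2]
  have g3 := good_two_powD (n := 2 * k + 1) (t := t) ⟨k, rfl⟩ (by omega) g2 (by rw [h5]; exact ht)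
  rw [h5] at g3
  have e1 : 2 * (2 * (2 ^ k) ^ 2) + 6 * 2 ^ k = 4 * (2 ^ k) ^ 2 + 6 * 2 ^ k := by ring
  have e2 : 3 * (t * (2 * (2 ^ k) ^ 2)) = 6 * (2 ^ k) ^ 2 * t := by ring
  have e3 : 2 * (6 * 2 ^ k) = 12 * 2 ^ k := by ring
  rw [e1, e2, e3] at g3
  exact g3

/-- one copy -/
lemma GoodD.one {s N d : ℕ} (h : GoodD s N d) (hs : 3 ≤ s) :
    ∃ F : Finset (Finset ℕ), Adm s F ∧ (∀ A ∈ F, ∀ B ∈ F, (A ∩ B).Nonempty) ∧
      (∀ x, (F.filter (fun A => x ∈ A)).card ≤ d) ∧ F.card = N := by
  classical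
  obtain ⟨H, hH, hd⟩ := h
  have hinj : Function.Injective H := by
    intro p q hpq
    by_contra hne
    have := hH.le p q hne
    rw [hpq, inter_self, hH.card] at this
    omega
  refine ⟨univ.image H, ⟨?_, ?_, ?_⟩, ?_, ?_, ?_⟩
  · intro A hA
    obtain ⟨p, -, rfl⟩ := mem_image.1 hA
    exact hH.card p
  · intro A hA B hB hAB
    obtain ⟨p, -, rfl⟩ := mem_image.1 hA
    obtain ⟨q, -, rfl⟩ := mem_image.1 hB
    exact hH.le p q (fun e => hAB (by rw [e]))
  · intro A hA B hB C hC hAB hAC hBC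
    obtain ⟨p, -, rfl⟩ := mem_image.1 hA
    obtain ⟨q, -, rfl⟩ := mem_image.1 hB
    obtain ⟨r, -, rfl⟩ := mem_image.1 hC
    exact hH.nosun p q r (fun e => hAB (by rw [e])) (fun e => hAC (by rw [e]))
      (fun e => hBC (by rw [e]))
  · intro A hA B hB
    obtain ⟨p, -, rfl⟩ := mem_image.1 hA
    obtain ⟨q, -, rfl⟩ := mem_image.1 hB
    by_cases hpq : p = q
    · rw [hpq, inter_self, ← card_pos, hH.card]
      omega
    · exact hH.pos p q hpq
  · intro x
    rw [Finset.filter_image]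
    exact Finset.card_image_le.trans (hd x)
  · rw [card_image_of_injective _ hinj, card_univ, Fintype.card_fin]

/-- two disjoint copies -/
lemma GoodD.two {s N d : ℕ} (h : GoodD s N d) (hs : 3 ≤ s) :
    ∃ F : Finset (Finset ℕ), Adm s F ∧ (∀ x, (F.filter (fun A => x ∈ A)).card ≤ d) ∧
      F.card = 2 * N := by
  classical
  obtain ⟨H, hH, hd⟩ := h
  -- copies in the even and in the odd numbers
  let e : Bool → ℕ ↪ ℕ := fun b => ⟨fun n => 2 * n + (if b then 1 else 0), fun x y hxy => by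
    dsimp at hxy; omega⟩
  let K : Bool × Fin N → Finset ℕ := fun p => (H p.2).map (e p.1)
  have hKcard : ∀ p, (K p).card = s := fun p => by simp only [K, card_map]; exact hH.card _
  have hsame : ∀ p q, p.1 = q.1 → K p ∩ K q = (H p.2 ∩ H q.2).map (e p.1) := by
    intro p q h
    simp only [K]
    rw [map_inter, h]
  have hdiff : ∀ p q, p.1 ≠ q.1 → K p ∩ K q = ∅ := by
    rintro ⟨b, i⟩ ⟨c, j⟩ h
    ext n
    simp only [K, e, mem_inter, mem_map, Function.Embedding.coeFn_mk, notMem_empty, iff_false,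
      not_and, not_exists]
    rintro ⟨x, -, hx⟩ y _ hy
    cases b <;> cases c <;> simp at h hx hy <;> omega
  have hle : ∀ p q, p ≠ q → (K p ∩ K q).card ≤ 2 := by
    intro p q hpq
    by_cases h : p.1 = q.1
    · rw [hsame p q h, card_map]
      exact hH.le _ _ (fun e => hpq (Prod.ext h e))
    · rw [hdiff p q h]; simp
  have hpos : ∀ p q, p ≠ q → p.1 = q.1 → (K p ∩ K q).Nonempty := by
    intro p q hpq h
    rw [hsame p q h]
    exact (hH.pos _ _ (fun e => hpq (Prod.ext h e))).map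
  have hinj : Function.Injective K := by
    intro p q hpq
    by_contra hne
    have := hle p q hne
    rw [hpq, inter_self, hKcard] at this
    omega
  have hsun : ∀ p q r, p ≠ q → p ≠ r → q ≠ r →
      ¬ (K p ∩ K q = K p ∩ K r ∧ K p ∩ K r = K q ∩ K r) := by
    rintro p q r hpq hpr hqr ⟨h1, h2⟩
    by_cases a : p.1 = q.1
    · by_cases b : p.1 = r.1
      · rw [hsame p q a, hsame p r b, map_inj] at h1
        rw [hsame p r b, hsame q r (a.symm.trans b), ← a, map_inj] at h2
        exact hH.nosun _ _ _ (fun e => hpq (Prod.ext a e)) (fun e => hpr (Prod.ext b e))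
          (fun e => hqr (Prod.ext (a.symm.trans b) e)) ⟨h1, h2⟩
      · have := hpos p q hpq a
        rw [h1, hdiff p r b] at this
        simp at this
    · by_cases b : p.1 = r.1
      · have := hpos p r hpr b
        rw [← h1, hdiff p q a] at this
        simp at this
      · have c : q.1 = r.1 := by
          revert a b; cases p.1 <;> cases q.1 <;> cases r.1 <;> simp
        have := hpos q r hqr c
        rw [← h2, hdiff p r b] at this
        simp at this
  refine ⟨univ.image K, ⟨?_, ?_, ?_⟩, ?_, ?_⟩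
  · intro A hA
    obtain ⟨p, -, rfl⟩ := mem_image.1 hA
    exact hKcard p
  · intro A hA B hB hAB
    obtain ⟨p, -, rfl⟩ := mem_image.1 hA
    obtain ⟨q, -, rfl⟩ := mem_image.1 hB
    exact hle p q (fun e => hAB (by rw [e]))
  · intro A hA B hB C hC hAB hAC hBC
    obtain ⟨p, -, rfl⟩ := mem_image.1 hA
    obtain ⟨q, -, rfl⟩ := mem_image.1 hB
    obtain ⟨r, -, rfl⟩ := mem_image.1 hC
    exact hsun p q r (fun e => hAB (by rw [e])) (fun e => hAC (by rw [e]))
      (fun e => hBC (by rw [e]))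
  · intro x
    rw [Finset.filter_image]
    refine Finset.card_image_le.trans (le_trans ?_ (hd (x / 2)))
    refine Finset.card_le_card_of_injOn (fun p => p.2) ?_ ?_
    · intro p hp
      rw [Finset.mem_coe, Finset.mem_filter] at hp ⊢
      refine ⟨mem_univ _, ?_⟩
      obtain ⟨a, ha, hax⟩ := Finset.mem_map.1 hp.2
      have h1 : 2 * a + (if p.1 then 1 else 0) = x := hax
      have h2 : x / 2 = a := by
        split_ifs at h1 <;> omega
      rw [h2]
      exact ha
    · intro p hp q hq hpq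
      rw [Finset.mem_coe, Finset.mem_filter] at hp hq
      obtain ⟨a, _, hax⟩ := Finset.mem_map.1 hp.2
      obtain ⟨b, _, hbx⟩ := Finset.mem_map.1 hq.2
      have h1 : 2 * a + (if p.1 then 1 else 0) = x := hax
      have h2 : 2 * b + (if q.1 then 1 else 0) = x := hbx
      have h3 : p.1 = q.1 := by
        cases hp1 : p.1 <;> cases hq1 : q.1 <;> simp [hp1, hq1] at h1 h2 ⊢ <;> omega
      exact Prod.ext h3 hpq
  · rw [card_image_of_injective _ hinj]
    simp [mul_comm]

end Pool.Agent.Work.MP_49280d_co.Dg
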