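import Pool.Agent.Work.MP_49280d_co.Dg.Basic

/-!
# Intersecting families whose degrees are at most `(201/200) ℓ`
-/

open Finset

namespace Pool.Agent.Work.MP_49280d_co.Dg

open Pool.Agent.Work.MP_49280d_co.Fu

/-- the numerical core -/
lemma num_core {L n ν Z Q n0 Q0 W W1 W2 P A : ℝ} (hL : 40000 ≤ L)
    (hn1 : 3 / 4 * L + 3 < n * L) (hn2 : n * L ≤ 3 / 4 * L + 4)
    (hI : n ^ 2 ≤ (ν + 2 * Z + Q) + Q0 - Q0 / 4 - ((W + 2 * W1 + W2) / 4 - (W + W1) + ν * W) -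
      (ν + Z) ^ 2 / n + ν ^ 2 + n / L)
    (hM : 4 / 3 * n ^ 2 ≤ ν + 2 * Z + Q + Q0)
    (hn : n = ν + Z + n0) (hZ : Z = P - A)
    (hf : -(13 / 400) * Z + (587 / 400 - W) * Q + (W1 / 2 - W2 / 4) ≤ -(1 / 40) * (P + A))
    (hg : W ≤ 1119 / 10000 → n0 * (2 * W - 387 / 400) + (487 / 400 - W) * Q0 ≤ -(1 / 40) * n0)
    (hP : P ≤ 1 / 200 * ν) (hMA : 65 / 100 * A + 35 / 100 * n0 ≤ 201 / 200 * P)
    (hW : W ≤ 23 / 200 * ν + 3 * A)
    (hP0 : 0 ≤ P) (hA0 : 0 ≤ A) (hn0 : 0 ≤ n0) (hW0 : 0 ≤ W) : False := by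
  have hL0 : 0 < L := by linarith
  have hnp : 0 < n := by
    by_contra h
    rw [not_lt] at h
    nlinarith
  obtain ⟨ε, hε⟩ : ∃ ε, ε = n - 3 / 4 := ⟨_, rfl⟩
  have hε1 : 3 < ε * L := by rw [hε]; linarith
  have hε2 : ε * L ≤ 4 := by rw [hε]; linarith
  have hε0 : 0 < ε := by
    by_contra h
    rw [not_lt] at h
    nlinarith
  have hε3 : ε ≤ 1 / 10000 := by nlinarith
  -- the small quantities
  have hA1 : A ≤ 201 / 130 * P := by linarith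
  have hν : ν ≤ 757 / 1000 := by linarith
  have hP1 : P ≤ 757 / 200000 := by linarith
  have hA2 : A ≤ 59 / 10000 := by linarith
  have hW1 : W ≤ 1049 / 10000 := by linarith
  have hT : P + A + n0 ≤ 1 / 40 := by linarith
  have hg' := hg (by linarith)
  have hr : (ν + Z) ^ 2 / n = n - 2 * n0 + n0 ^ 2 / n := by
    have h1 : ν + Z = n - n0 := by linarith
    rw [h1]
    field_simp
    ring
  have hr0 : 0 ≤ n0 ^ 2 / n := by positivity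
  rw [hr] at hI
  obtain ⟨r, hr'⟩ : ∃ r, r = n0 ^ 2 / n := ⟨_, rfl⟩
  obtain ⟨e, he⟩ : ∃ e, e = n / L := ⟨_, rfl⟩
  rw [← hr'] at hI hr0
  rw [← he] at hI
  have hκ : 0 ≤ (187 / 400 - W) * (ν + 2 * Z + Q + Q0 - 4 / 3 * n ^ 2) :=
    mul_nonneg (by linarith) (by linarith)
  -- the identity
  have hE : 0 ≤ (P - A + n0) ^ 2 - 2 * ε * (P - A + n0) - r + e -
      4 / 3 * (187 / 400 - W) * n * ε - W * ε +
      (-(13 / 400) * Z + (587 / 400 - W) * Q + (W1 / 2 - W2 / 4)) +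
      (n0 * (2 * W - 387 / 400) + (487 / 400 - W) * Q0) := by
    have h1 : n0 = n - ν - Z := by linarith
    have h2 : (P - A + n0) ^ 2 - 2 * ε * (P - A + n0) - r + e -
      4 / 3 * (187 / 400 - W) * n * ε - W * ε +
      (-(13 / 400) * Z + (587 / 400 - W) * Q + (W1 / 2 - W2 / 4)) +
      (n0 * (2 * W - 387 / 400) + (487 / 400 - W) * Q0) =
      ((ν + 2 * Z + Q) + Q0 - Q0 / 4 - ((W + 2 * W1 + W2) / 4 - (W + W1) + ν * W) -
      (n - 2 * n0 + r) + ν ^ 2 + e - n ^ 2) +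
      (187 / 400 - W) * (ν + 2 * Z + Q + Q0 - 4 / 3 * n ^ 2) := by
      rw [h1, hε, ← hZ]
      ring
    rw [h2]
    linarith
  have hsq : (P - A + n0) ^ 2 ≤ 1 / 40 * (P + A + n0) := by nlinarith
  have h3 : 0 ≤ 2 * ε * A + e - 4 / 3 * (187 / 400 - W) * n * ε := by nlinarith
  have hee : e * L = n := by rw [he]; field_simp
  have h4 : 0 ≤ 2 * (ε * L) * A + n - 4 / 3 * (187 / 400 - W) * n * (ε * L) := by
    have := mul_nonneg h3 hL0.le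
    nlinarith
  obtain ⟨t, ht⟩ : ∃ t, t = ε * L := ⟨_, rfl⟩
  rw [← ht] at h4 hε1 hε2
  have hn3 : 3 / 4 ≤ n := by linarith
  have h5 : 4 / 3 * (187 / 400 - W) ≥ 48 / 100 := by linarith
  have h6 : 48 / 100 * (n * t) ≤ 4 / 3 * (187 / 400 - W) * (n * t) :=
    mul_le_mul_of_nonneg_right h5 (by positivity)
  nlinarith

/-- the weight -/
noncomputable def wt (z : ℝ) : ℝ := if 0 ≤ z then 0 else min 1 (23 / 200 - 3 * z)

lemma wt_nonneg (z : ℝ) : 0 ≤ wt z := by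
  unfold wt
  split_ifs with h
  · exact le_rfl
  · exact le_min (by norm_num) (by linarith)

lemma wt_le_one (z : ℝ) : wt z ≤ 1 := by
  unfold wt
  split_ifs with h
  · norm_num
  · exact min_le_left _ _

lemma wt_le (z : ℝ) : wt z ≤ 23 / 200 + 3 * max (-z) 0 := by
  unfold wt
  split_ifs with h
  · have := le_max_right (-z) 0
    linarith
  · have h1 := min_le_right 1 (23 / 200 - 3 * z)
    have h2 := le_max_left (-z) 0
    linarith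

lemma pt_f {z W : ℝ} (hW : 0 ≤ W) (hz1 : -(35 / 100) ≤ z) (hz2 : z ≤ 1 / 200) :
    -(13 / 400) * z + (587 / 400 - W) * z ^ 2 + (1 / 2 * (wt z * z) + -(1 / 4) * (wt z * z ^ 2)) ≤
      -(1 / 40) * (max z 0 + max (-z) 0) := by
  have hW2 : 0 ≤ W * z ^ 2 := by positivity
  unfold wt
  split_ifs with h
  · rw [max_eq_left h, max_eq_right (by linarith)]
    nlinarith
  · rw [not_le] at h
    rw [max_eq_right h.le, max_eq_left (by linarith)]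
    rcases le_total (23 / 200 - 3 * z) 1 with h1 | h1
    · rw [min_eq_right h1]
      have h2 : z ^ 3 ≤ 0 := by nlinarith [sq_nonneg z]
      nlinarith [sq_nonneg z]
    · rw [min_eq_left h1]
      nlinarith

lemma lin4 {α : Type*} (S : Finset α) (c₁ c₂ c₃ c₄ : ℝ) (f₁ f₂ f₃ f₄ : α → ℝ) :
    ∑ x ∈ S, (c₁ * f₁ x + c₂ * f₂ x + (c₃ * f₃ x + c₄ * f₄ x)) =
      c₁ * ∑ x ∈ S, f₁ x + c₂ * ∑ x ∈ S, f₂ x + (c₃ * ∑ x ∈ S, f₃ x + c₄ * ∑ x ∈ S, f₄ x) := by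
  rw [Finset.sum_add_distrib, Finset.sum_add_distrib, Finset.sum_add_distrib, ← Finset.mul_sum,
    ← Finset.mul_sum, ← Finset.mul_sum, ← Finset.mul_sum]

lemma lin2 {α : Type*} (S : Finset α) (c₁ c₂ : ℝ) (f₁ f₂ : α → ℝ) :
    ∑ x ∈ S, (c₁ * f₁ x + c₂ * f₂ x) = c₁ * ∑ x ∈ S, f₁ x + c₂ * ∑ x ∈ S, f₂ x := by
  rw [Finset.sum_add_distrib, ← Finset.mul_sum, ← Finset.mul_sum]

variable {α : Type*} [DecidableEq α] {ℓ : ℕ} {F : Finset (Finset α)} {X : Finset α}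

theorem near_core (hℓ : 200 ≤ ℓ) (hF : Adm ℓ F) (hX : ∀ A ∈ F, A ⊆ X)
    (hi : ∀ A ∈ F, ∀ B ∈ F, A ≠ B → (A ∩ B).Nonempty)
    (hd : ∀ x ∈ X, 200 * dg F x ≤ 201 * ℓ)
    (h1 : 3 * ℓ ^ 2 + 12 < 4 * F.card) (h2 : 4 * F.card ≤ 3 * ℓ ^ 2 + 16) : False := by
  classical
  have hl : (200 : ℝ) ≤ ℓ := by exact_mod_cast hℓ
  have hl0 : (0 : ℝ) < ℓ := by linarith
  have hne : F.Nonempty := by
    rw [← Finset.card_pos]
    omega
  have h1' : 3 * (ℓ : ℝ) ^ 2 + 12 < 4 * F.card := by exact_mod_cast h1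
  have h2' : 4 * (F.card : ℝ) ≤ 3 * (ℓ : ℝ) ^ 2 + 16 := by exact_mod_cast h2
  obtain ⟨z, hz⟩ : ∃ z : α → ℝ, ∀ x, z x = dg F x / ℓ - 1 := ⟨_, fun _ => rfl⟩
  obtain ⟨D, hD⟩ : ∃ D : α → ℝ, ∀ x, D x = dg F x / ℓ := ⟨_, fun _ => rfl⟩
  have hdz : ∀ x, dg F x = ℓ * (1 + z x) := by
    intro x
    rw [hz]
    field_simp
    ring
  have hdD : ∀ x, dg F x = ℓ * D x := by
    intro x
    rw [hD]
    field_simp
  obtain ⟨X1, hX1⟩ : ∃ X1, X1 = X.filter (fun x => 65 / 100 * (ℓ : ℝ) ≤ dg F x) := ⟨_, rfl⟩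
  obtain ⟨X0, hX0⟩ : ∃ X0, X0 = X.filter (fun x => ¬ 65 / 100 * (ℓ : ℝ) ≤ dg F x) := ⟨_, rfl⟩
  have hsplit : ∀ f : α → ℝ, ∑ x ∈ X, f x = ∑ x ∈ X1, f x + ∑ x ∈ X0, f x := by
    intro f
    rw [hX1, hX0, Finset.sum_filter_add_sum_filter_not]
  have hsub : X1 ⊆ X := by rw [hX1]; exact Finset.filter_subset _ _
  have hz1 : ∀ x ∈ X1, -(35 / 100) ≤ z x ∧ z x ≤ 1 / 200 := by
    intro x hx
    rw [hX1, Finset.mem_filter] at hx
    have h3 := hd x hx.1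
    have h4 := hx.2
    rw [hdz] at h3 h4
    constructor
    · by_contra hcon
      rw [not_le] at hcon
      nlinarith
    · by_contra hcon
      rw [not_le] at hcon
      nlinarith
  have hD0 : ∀ x ∈ X0, 0 ≤ D x ∧ D x ≤ 65 / 100 := by
    intro x hx
    rw [hX0, Finset.mem_filter, not_le] at hx
    have h3 := dg_nonneg F x
    have h4 := hx.2
    rw [hdD] at h3 h4
    constructor
    · by_contra hcon
      rw [not_le] at hcon
      nlinarith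
    · by_contra hcon
      rw [not_le] at hcon
      nlinarith
  -- the scalars
  have hL0 : (0 : ℝ) < (ℓ : ℝ) ^ 2 := by positivity
  have hsc : ∀ t : ℝ, ∃ v : ℝ, v * (ℓ : ℝ) ^ 2 = t := fun t => ⟨_, div_mul_cancel₀ t hL0.ne'⟩
  obtain ⟨v, hv⟩ := hsc X1.card
  obtain ⟨Z, hZ⟩ := hsc (∑ x ∈ X1, z x)
  obtain ⟨Q, hQ⟩ := hsc (∑ x ∈ X1, z x ^ 2)
  obtain ⟨n0, hn0⟩ := hsc (∑ x ∈ X0, D x)
  obtain ⟨Q0, hQ0⟩ := hsc (∑ x ∈ X0, D x ^ 2)
  obtain ⟨W, hW⟩ := hsc (∑ x ∈ X1, wt (z x))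
  obtain ⟨W1, hW1⟩ := hsc (∑ x ∈ X1, wt (z x) * z x)
  obtain ⟨W2, hW2⟩ := hsc (∑ x ∈ X1, wt (z x) * z x ^ 2)
  obtain ⟨P, hP⟩ := hsc (∑ x ∈ X1, max (z x) 0)
  obtain ⟨A, hA⟩ := hsc (∑ x ∈ X1, max (-z x) 0)
  obtain ⟨n, hn⟩ := hsc F.card
  have hnpos : 0 < n := by
    have h3 : (0 : ℝ) < F.card := by exact_mod_cast hne.card_pos
    rw [← hn] at h3
    by_contra hcon
    rw [not_lt] at hcon
    exact absurd h3 (not_lt.2 (mul_nonpos_of_nonpos_of_nonneg hcon hL0.le))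
  -- sums of the degrees
  have hs1 : ∑ x ∈ X1, dg F x = ℓ * (v + Z) * (ℓ : ℝ) ^ 2 := by
    have h3 : ∑ x ∈ X1, dg F x = ∑ x ∈ X1, (ℓ * 1 + ℓ * z x) := by
      refine Finset.sum_congr rfl fun x _ => ?_
      rw [hdz]; ring
    rw [h3, lin2 X1 (ℓ : ℝ) ℓ (fun _ => 1) z, ← hZ]
    simp only [Finset.sum_const, nsmul_eq_mul, mul_one]
    rw [← hv]; ring
  have hs0 : ∑ x ∈ X0, dg F x = ℓ * n0 * (ℓ : ℝ) ^ 2 := by
    have h3 : ∑ x ∈ X0, dg F x = ∑ x ∈ X0, ℓ * D x :=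
      Finset.sum_congr rfl fun x _ => hdD x
    rw [h3, ← Finset.mul_sum, ← hn0]; ring
  have hq1 : ∑ x ∈ X1, dg F x ^ 2 = (ℓ : ℝ) ^ 2 * (v + 2 * Z + Q) * (ℓ : ℝ) ^ 2 := by
    have h3 : ∑ x ∈ X1, dg F x ^ 2 = ∑ x ∈ X1, ((ℓ : ℝ) ^ 2 * 1 + (2 * (ℓ : ℝ) ^ 2) * z x +
        ((ℓ : ℝ) ^ 2 * z x ^ 2 + 0 * 0)) := by
      refine Finset.sum_congr rfl fun x _ => ?_
      rw [hdz]; ring
    rw [h3, lin4 X1 _ _ _ _ (fun _ => 1) z (fun x => z x ^ 2) (fun _ => 0), ← hZ, ← hQ]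
    simp only [Finset.sum_const, nsmul_eq_mul, mul_one]
    rw [← hv]; ring
  have hq0 : ∑ x ∈ X0, dg F x ^ 2 = (ℓ : ℝ) ^ 2 * Q0 * (ℓ : ℝ) ^ 2 := by
    have h3 : ∑ x ∈ X0, dg F x ^ 2 = ∑ x ∈ X0, (ℓ : ℝ) ^ 2 * D x ^ 2 := by
      refine Finset.sum_congr rfl fun x _ => ?_
      rw [hdD]; ring
    rw [h3, ← Finset.mul_sum, ← hQ0]; ring
  have hPP : PP F X = (ℓ : ℝ) ^ 2 * (v + 2 * Z + Q) * (ℓ : ℝ) ^ 2 + (ℓ : ℝ) ^ 2 * Q0 * (ℓ : ℝ) ^ 2 := by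
    unfold PP
    rw [hsplit, hq1, hq0]
  have hN : (F.card : ℝ) * ℓ = ℓ * (v + Z) * (ℓ : ℝ) ^ 2 + ℓ * n0 * (ℓ : ℝ) ^ 2 := by
    rw [← sum_dg hX hF.card_eq, hsplit, hs1, hs0]
  have hnn : n = v + Z + n0 := by
    rw [← hn] at hN
    have h3 : (ℓ * (ℓ : ℝ) ^ 2) * n = (ℓ * (ℓ : ℝ) ^ 2) * (v + Z + n0) := by linarith
    exact mul_left_cancel₀ (by positivity) h3
  -- the coverage inequality
  have hcov := cover_ineq hF hne hX hsub (a := fun x => wt (z x)) (fun x _ => wt_nonneg _)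
    (fun x _ => wt_le_one _)
  have hs : ∑ x ∈ X1, wt (z x) * (dg F x ^ 2 / 4 - dg F x / 2 - dg F x * (ℓ - 1) + X1.card - 1) =
      ((ℓ : ℝ) ^ 2 * (W + 2 * W1 + W2) / 4 - ℓ * (W + W1) / 2 - ℓ * (ℓ - 1) * (W + W1) +
        (v * (ℓ : ℝ) ^ 2 - 1) * W) * (ℓ : ℝ) ^ 2 := by
    have h3 : ∑ x ∈ X1, wt (z x) * (dg F x ^ 2 / 4 - dg F x / 2 - dg F x * (ℓ - 1) + X1.card - 1) =
        ∑ x ∈ X1, (((ℓ : ℝ) ^ 2 / 4 - ℓ / 2 - ℓ * (ℓ - 1) + X1.card - 1) * wt (z x) +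
          ((ℓ : ℝ) ^ 2 / 2 - ℓ / 2 - ℓ * (ℓ - 1)) * (wt (z x) * z x) +
          ((ℓ : ℝ) ^ 2 / 4 * (wt (z x) * z x ^ 2) + 0 * 0)) := by
      refine Finset.sum_congr rfl fun x _ => ?_
      rw [hdz]; ring
    rw [h3, lin4 X1 _ _ _ _ (fun x => wt (z x)) (fun x => wt (z x) * z x)
      (fun x => wt (z x) * z x ^ 2) (fun _ => 0), ← hW, ← hW1, ← hW2, ← hv]
    ring
  rw [hs, hs1, ← hv, ← hn] at hcov
  have hmant : ∑ x ∈ X0, (dg F x ^ 2 / 4 - dg F x / 2) ≤ ∑ x ∈ X0, qq F X x :=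
    Finset.sum_le_sum fun x hx => qq_ge hF hX (by
      rw [hX0] at hx
      exact (Finset.mem_filter.1 hx).1)
  have hmant2 : ∑ x ∈ X0, (dg F x ^ 2 / 4 - dg F x / 2) =
      (ℓ : ℝ) ^ 2 * Q0 * (ℓ : ℝ) ^ 2 / 4 - ℓ * n0 * (ℓ : ℝ) ^ 2 / 2 := by
    rw [Finset.sum_sub_distrib, ← Finset.sum_div, ← Finset.sum_div, hq0, hs0]
  have htot := sum_qq hF hX hi
  rw [hsplit, hPP, ← hn] at htot
  have hdiv : (ℓ * (v + Z) * (ℓ : ℝ) ^ 2) ^ 2 / (n * (ℓ : ℝ) ^ 2) = (v + Z) ^ 2 / n * (ℓ : ℝ) ^ 4 := by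
    field_simp
  rw [hdiv] at hcov
  rw [hmant2] at hmant
  -- nonnegativity
  have hn00 : 0 ≤ n0 := by
    have h3 : 0 ≤ ∑ x ∈ X0, D x := Finset.sum_nonneg fun x hx => (hD0 x hx).1
    rw [← hn0] at h3
    exact nonneg_of_mul_nonneg_left h3 hL0
  have hW0 : 0 ≤ W := by
    have h3 : 0 ≤ ∑ x ∈ X1, wt (z x) := Finset.sum_nonneg fun x _ => wt_nonneg _
    rw [← hW] at h3
    exact nonneg_of_mul_nonneg_left h3 hL0
  have hWv : W ≤ v := by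
    have h3 : ∑ x ∈ X1, wt (z x) ≤ ∑ _x ∈ X1, (1 : ℝ) := Finset.sum_le_sum fun x _ => wt_le_one _
    rw [← hW, Finset.sum_const, nsmul_eq_mul, mul_one, ← hv] at h3
    exact le_of_mul_le_mul_right h3 hL0
  have hWW : 0 ≤ W + W1 := by
    have h3 : 0 ≤ ∑ x ∈ X1, (1 * wt (z x) + 1 * (wt (z x) * z x)) := by
      refine Finset.sum_nonneg fun x hx => ?_
      have := wt_nonneg (z x)
      have := (hz1 x hx).1
      nlinarith
    rw [lin2 X1 1 1 (fun x => wt (z x)) (fun x => wt (z x) * z x), ← hW, ← hW1] at h3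
    nlinarith
  have hP0 : 0 ≤ P := by
    have h3 : 0 ≤ ∑ x ∈ X1, max (z x) 0 := Finset.sum_nonneg fun x _ => le_max_right _ _
    rw [← hP] at h3
    exact nonneg_of_mul_nonneg_left h3 hL0
  have hA0 : 0 ≤ A := by
    have h3 : 0 ≤ ∑ x ∈ X1, max (-z x) 0 := Finset.sum_nonneg fun x _ => le_max_right _ _
    rw [← hA] at h3
    exact nonneg_of_mul_nonneg_left h3 hL0
  -- the two inequalities
  have hI : n ^ 2 ≤ (v + 2 * Z + Q) + Q0 - Q0 / 4 - ((W + 2 * W1 + W2) / 4 - (W + W1) + v * W) -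
      (v + Z) ^ 2 / n + v ^ 2 + n / (ℓ : ℝ) ^ 2 := by
    obtain ⟨r, hr⟩ : ∃ r, r = (v + Z) ^ 2 / n := ⟨_, rfl⟩
    rw [← hr] at hcov ⊢
    obtain ⟨e, he⟩ : ∃ e, e = n / (ℓ : ℝ) ^ 2 := ⟨_, rfl⟩
    have he' : n = e * (ℓ : ℝ) ^ 2 := by rw [he]; field_simp
    rw [← he]
    have hL4 : (0 : ℝ) < (ℓ : ℝ) ^ 4 := by positivity
    refine le_of_mul_le_mul_left ?_ hL4
    have p1 : 0 ≤ (ℓ : ℝ) ^ 3 * (W + W1) := by positivity
    have p2 : 0 ≤ (ℓ : ℝ) ^ 2 * (v - W) := mul_nonneg hL0.le (by linarith)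
    have p3 : 0 ≤ (ℓ : ℝ) ^ 3 * n0 := by positivity
    have p4 : (ℓ : ℝ) ^ 3 * n = (ℓ : ℝ) ^ 3 * (v + Z + n0) := by rw [hnn]
    have p5 : (ℓ : ℝ) ^ 2 * n = (ℓ : ℝ) ^ 4 * e := by rw [he']; ring
    have p6 : n * (ℓ : ℝ) ^ 2 * (n * (ℓ : ℝ) ^ 2 - 1) = (ℓ : ℝ) ^ 4 * n ^ 2 - (ℓ : ℝ) ^ 2 * n := by
      ring
    rw [p6] at htot
    nlinarith
  have hM : 4 / 3 * n ^ 2 ≤ v + 2 * Z + Q + Q0 := by
    have m1 := meet_le hF hX
    have m2 := meet_add F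
    have m0 : ∑ A ∈ F, ∑ B ∈ F, ne1 A B * (1 - mt A B) = 0 := by
      refine Finset.sum_eq_zero fun A hA => Finset.sum_eq_zero fun B hB => ?_
      unfold ne1 Fu.mt
      by_cases h : A = B
      · simp [h]
      · have := Finset.card_pos.2 (hi A hA B hB h)
        rw [if_neg h, if_neg (by omega)]
        ring
    rw [hPP] at m1
    rw [m0, add_zero] at m2
    rw [m2, ← hn] at m1
    have hL4 : (0 : ℝ) < (ℓ : ℝ) ^ 4 := by positivity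
    refine le_of_mul_le_mul_left ?_ hL4
    have p1 : 0 ≤ (ℓ : ℝ) ^ 2 * n * (2 * ℓ - 4) := by
      have : (0 : ℝ) ≤ 2 * ℓ - 4 := by linarith
      positivity
    nlinarith
  have hZPA : Z = P - A := by
    have h3 : ∑ x ∈ X1, z x = ∑ x ∈ X1, (1 * max (z x) 0 + (-1) * max (-z x) 0) := by
      refine Finset.sum_congr rfl fun x _ => ?_
      rcases le_total 0 (z x) with h | h
      · rw [max_eq_left h, max_eq_right (by linarith)]; ring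
      · rw [max_eq_right h, max_eq_left (by linarith)]; ring
    rw [lin2 X1 1 (-1) (fun x => max (z x) 0) (fun x => max (-z x) 0), ← hZ, ← hP, ← hA] at h3
    refine mul_right_cancel₀ hL0.ne' ?_
    linarith
  have hf : -(13 / 400) * Z + (587 / 400 - W) * Q + (W1 / 2 - W2 / 4) ≤ -(1 / 40) * (P + A) := by
    have h3 : ∑ x ∈ X1, (-(13 / 400) * z x + (587 / 400 - W) * z x ^ 2 +
        (1 / 2 * (wt (z x) * z x) + -(1 / 4) * (wt (z x) * z x ^ 2))) ≤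
        ∑ x ∈ X1, (-(1 / 40) * max (z x) 0 + -(1 / 40) * max (-z x) 0) := by
      refine Finset.sum_le_sum fun x hx => ?_
      have := pt_f hW0 (hz1 x hx).1 (hz1 x hx).2
      linarith
    rw [lin4 X1 _ _ _ _ z (fun x => z x ^ 2) (fun x => wt (z x) * z x)
      (fun x => wt (z x) * z x ^ 2), lin2 X1 _ _ (fun x => max (z x) 0) (fun x => max (-z x) 0),
      ← hZ, ← hQ, ← hW1, ← hW2, ← hP, ← hA] at h3
    refine le_of_mul_le_mul_right ?_ hL0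
    linarith
  have hg : W ≤ 1119 / 10000 → n0 * (2 * W - 387 / 400) + (487 / 400 - W) * Q0 ≤ -(1 / 40) * n0 := by
    intro hWs
    have h3 : ∑ x ∈ X0, ((2 * W - 387 / 400) * D x + (487 / 400 - W) * D x ^ 2) ≤
        ∑ x ∈ X0, (-(1 / 40) * D x + 0 * D x) := by
      refine Finset.sum_le_sum fun x hx => ?_
      obtain ⟨h4, h5⟩ := hD0 x hx
      have h6 : D x ^ 2 ≤ 65 / 100 * D x := by nlinarith
      have h7 : (487 / 400 - W) * D x ^ 2 ≤ (487 / 400 - W) * (65 / 100 * D x) :=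
        mul_le_mul_of_nonneg_left h6 (by linarith)
      have h8 : 0 ≤ (1119 / 10000 - W) * D x := mul_nonneg (by linarith) h4
      nlinarith
    rw [lin2 X0 _ _ D (fun x => D x ^ 2), lin2 X0 _ _ D D, ← hn0, ← hQ0] at h3
    refine le_of_mul_le_mul_right ?_ hL0
    linarith
  have hPv : P ≤ 1 / 200 * v := by
    have h3 : ∑ x ∈ X1, max (z x) 0 ≤ ∑ _x ∈ X1, (1 / 200 : ℝ) :=
      Finset.sum_le_sum fun x hx => max_le (hz1 x hx).2 (by norm_num)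
    rw [← hP, Finset.sum_const, nsmul_eq_mul, ← hv] at h3
    refine le_of_mul_le_mul_right ?_ hL0
    linarith
  have hWb : W ≤ 23 / 200 * v + 3 * A := by
    have h3 : ∑ x ∈ X1, wt (z x) ≤ ∑ x ∈ X1, (23 / 200 * 1 + 3 * max (-z x) 0) := by
      refine Finset.sum_le_sum fun x _ => ?_
      have := wt_le (z x)
      linarith
    rw [lin2 X1 _ _ (fun _ => 1) (fun x => max (-z x) 0), ← hW, ← hA, Finset.sum_const,
      nsmul_eq_mul, mul_one, ← hv] at h3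
    refine le_of_mul_le_mul_right ?_ hL0
    linarith
  have hMA : 65 / 100 * A + 35 / 100 * n0 ≤ 201 / 200 * P := by
    have h3 : ∑ x ∈ X1, (1 * z x + 1 * z x ^ 2) ≤
        ∑ x ∈ X1, (201 / 200 * max (z x) 0 + (-(65 / 100)) * max (-z x) 0) := by
      refine Finset.sum_le_sum fun x hx => ?_
      obtain ⟨h4, h5⟩ := hz1 x hx
      rcases le_total 0 (z x) with h | h
      · rw [max_eq_left h, max_eq_right (by linarith)]; nlinarith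
      · rw [max_eq_right h, max_eq_left (by linarith)]; nlinarith
    have h4 : ∑ x ∈ X0, (1 * D x ^ 2 + (-1) * D x) ≤ ∑ x ∈ X0, (-(35 / 100) * D x + 0 * D x) := by
      refine Finset.sum_le_sum fun x hx => ?_
      obtain ⟨h4, h5⟩ := hD0 x hx
      nlinarith
    rw [lin2 X1 _ _ z (fun x => z x ^ 2), lin2 X1 _ _ (fun x => max (z x) 0)
      (fun x => max (-z x) 0), ← hZ, ← hQ, ← hP, ← hA] at h3
    rw [lin2 X0 _ _ (fun x => D x ^ 2) D, lin2 X0 _ _ D D, ← hn0, ← hQ0] at h4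
    have h5 : 3 / 4 ≤ n := by
      refine le_of_mul_le_mul_right ?_ hL0
      rw [hn]
      linarith
    have h6 : n ≤ 4 / 3 * n ^ 2 := by nlinarith
    have h7 : (65 / 100 * A + 35 / 100 * n0) * (ℓ : ℝ) ^ 2 ≤ 201 / 200 * P * (ℓ : ℝ) ^ 2 := by
      have h8 : 0 ≤ (v + 2 * Z + Q + Q0 - n) * (ℓ : ℝ) ^ 2 := mul_nonneg (by linarith) hL0.le
      rw [hnn] at h8
      linarith
    exact le_of_mul_le_mul_right h7 hL0
  have hLbig : 40000 ≤ (ℓ : ℝ) ^ 2 := by nlinarith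
  refine num_core hLbig (n := n) ?_ ?_ hI hM hnn hZPA hf hg hPv hMA hWb hP0 hA0 hn00 hW0
  · rw [hn]; linarith
  · rw [hn]; linarith

/-- **Intersecting families with degrees at most `(201/200) ℓ`.** -/
theorem near_int (hF : Adm ℓ F) (hi : ∀ A ∈ F, ∀ B ∈ F, A ≠ B → (A ∩ B).Nonempty)
    (hd : ∀ x, 200 * (F.filter (fun A => x ∈ A)).card ≤ 201 * ℓ) :
    4 * F.card ≤ 3 * ℓ ^ 2 + 12 := by
  classical
  rcases F.eq_empty_or_nonempty with h0 | hne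
  · rw [h0]; simp
  by_contra hcon
  rw [not_le] at hcon
  set X : Finset α := F.biUnion id with hXdef
  have hX : ∀ A ∈ F, A ⊆ X := fun A hA x hx => Finset.mem_biUnion.2 ⟨A, hA, hx⟩
  rcases lt_or_ge ℓ 200 with hℓ | hℓ
  · have h1 : ∀ x ∈ X, dg F x ≤ ℓ := by
      intro x _
      rw [dg_eq]
      have := hd x
      exact_mod_cast (by omega : (F.filter (fun A => x ∈ A)).card ≤ ℓ)
    have h2 := deg_bound_int hF hne hX hi h1
    have h3 : 3 * (ℓ : ℝ) ^ 2 + 12 < 4 * F.card := by exact_mod_cast hcon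
    have h4 : (0 : ℝ) ≤ ℓ := Nat.cast_nonneg _
    nlinarith
  · obtain ⟨G, hGF, hG⟩ := Finset.exists_subset_card_eq
      (show (3 * ℓ ^ 2 + 12) / 4 + 1 ≤ F.card by omega)
    refine near_core hℓ (hF.subset hGF) (X := X) (fun A hA => hX A (hGF hA))
      (fun A hA B hB => hi A (hGF hA) B (hGF hB)) ?_ (by omega) (by omega)
    intro x _
    rw [dg_eq]
    have h1 : (G.filter (fun A => x ∈ A)).card ≤ (F.filter (fun A => x ∈ A)).card :=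
      Finset.card_le_card (Finset.filter_subset_filter _ hGF)
    have h2 := hd x
    exact_mod_cast (by omega : 200 * (G.filter (fun A => x ∈ A)).card ≤ 201 * ℓ)

end Pool.Agent.Work.MP_49280d_co.Dg
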